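import Mathlib
import Pool.Agent.Helper64.SQ.Core
import Pool.Agent.Helper64.SQ.Complete

/-!
# Witnesses of non-duality from `O(sqrt (log N / log log N))` edges: the decoder

Mixed path: a state `s = (ones, zeros)`; the next vertex is the first undecided one which is frequent in
the rest of `F` (default zero), if there is none the first undecided one which is frequent in the rest of
`G` (default one). Two predictors `CA`, `CB` (unions of recorded edges) tell the forced decisions. If nothing
is frequent, all remaining edges are large and the method of conditional expectations (`cexp`) ends.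
-/

set_option autoImplicit false

namespace Pool.Agent.Helper66.SQ2

open Pool.Agent.Helper64.SQ

variable {n : ℕ}

/-- The first undecided vertex which is frequent in the rest of `F` (ones kill). -/
def fst1 (K : ℕ) (F : List (Finset (Fin n))) (s : Finset (Fin n) × Finset (Fin n)) :
    Option (Fin n) :=
  (List.finRange n).find? fun v => decide (v ∉ s.1 ∪ s.2 ∧ Freq K F s.1 v)

/-- The first undecided vertex which is frequent in the rest of `G` (zeros kill). -/
def fst2 (K : ℕ) (G : List (Finset (Fin n))) (s : Finset (Fin n) × Finset (Fin n)) :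
    Option (Fin n) :=
  (List.finRange n).find? fun v => decide (v ∉ s.1 ∪ s.2 ∧ Freq K G s.2 v)

/-- The vertex `v` becomes one iff `b`. -/
def put (s : Finset (Fin n) × Finset (Fin n)) (v : Fin n) (b : Bool) :
    Finset (Fin n) × Finset (Fin n) :=
  if b = true then (insert v s.1, s.2) else (s.1, insert v s.2)

/-- The next vertex becomes one iff `b`. -/
def fstep (K : ℕ) (F G : List (Finset (Fin n))) (b : Bool)
    (s : Finset (Fin n) × Finset (Fin n)) : Finset (Fin n) × Finset (Fin n) :=
  match fst1 K F s with
  | some v => put s v b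
  | none => match fst2 K G s with
    | some v => put s v b
    | none => s

/-- One step of the mixed path with the predictors `CA` (ones) and `CB` (zeros). -/
def mstep (K : ℕ) (F G : List (Finset (Fin n))) (CA CB : Finset (Fin n))
    (s : Finset (Fin n) × Finset (Fin n)) : Finset (Fin n) × Finset (Fin n) :=
  match fst1 K F s with
  | some v => put s v (decide (v ∈ CA))
  | none => match fst2 K G s with
    | some v => put s v (decide (v ∉ CB))
    | none => s

/-- The first `i` steps of the mixed path. -/
def msim (K : ℕ) (F G : List (Finset (Fin n))) (CA CB : Finset (Fin n)) :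
    ℕ → Finset (Fin n) × Finset (Fin n)
  | 0 => (∅, ∅)
  | i + 1 => mstep K F G CA CB (msim K F G CA CB i)

/-- The union of the sets `p.2 - p.1`. -/
def uni (X : List (Fin n × Finset (Fin n))) : Finset (Fin n) :=
  Finset.univ.filter fun j => ∃ p ∈ X, j ≠ p.1 ∧ j ∈ p.2

/-- `min (2 ^ x) M`. -/
def tpow (M x : ℕ) : ℕ := min (2 ^ x) M

/-- The potential of a state. -/
def pot (K M : ℕ) (F G : List (Finset (Fin n))) (s : Finset (Fin n) × Finset (Fin n)) : ℕ :=
  (F.map fun B => if Disjoint B s.1 then tpow M (K + 1 - (B \ s.2).card) else 0).sum +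
    (G.map fun A => if Disjoint A s.2 then tpow M (K + 1 - (A \ s.1).card) else 0).sum

/-- One step of the method of conditional expectations. -/
def cstep (K M : ℕ) (F G : List (Finset (Fin n))) (s : Finset (Fin n) × Finset (Fin n))
    (v : Fin n) : Finset (Fin n) × Finset (Fin n) :=
  if v ∈ s.1 ∪ s.2 then s
  else if pot K M F G (insert v s.1, s.2) ≤ pot K M F G (s.1, insert v s.2) then
    (insert v s.1, s.2) else (s.1, insert v s.2)

/-- The vertices smaller than `i` are decided. -/
def cexp (K M : ℕ) (F G : List (Finset (Fin n))) (s : Finset (Fin n) × Finset (Fin n)) :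
    ℕ → Finset (Fin n) × Finset (Fin n)
  | 0 => s
  | i + 1 => if h : i < n then cstep K M F G (cexp K M F G s i) ⟨i, h⟩ else cexp K M F G s i

/-! ### Conditional expectations -/

theorem tpow_succ (M x : ℕ) : tpow M (x + 1) ≤ 2 * tpow M x := by
  unfold tpow
  rw [pow_succ]
  omega

theorem tpow_mono (M : ℕ) {x y : ℕ} (h : x ≤ y) : tpow M x ≤ tpow M y := by
  unfold tpow
  have := Nat.pow_le_pow_right (n := 2) (by norm_num) h
  omega

/-- One half of the potential. -/
def hpot (K M : ℕ) (F : List (Finset (Fin n))) (O Z : Finset (Fin n)) : ℕ :=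
  (F.map fun B => if Disjoint B O then tpow M (K + 1 - (B \ Z).card) else 0).sum

theorem hpot_step (K M : ℕ) (F : List (Finset (Fin n))) (O Z : Finset (Fin n)) (v : Fin n)
    (hv : v ∉ Z) : hpot K M F (insert v O) Z + hpot K M F O (insert v Z) ≤ 2 * hpot K M F O Z := by
  unfold hpot
  induction F with
  | nil => simp
  | cons B F ih =>
    simp only [List.map_cons, List.sum_cons]
    have h : (if Disjoint B (insert v O) then tpow M (K + 1 - (B \ Z).card) else 0) +
        (if Disjoint B O then tpow M (K + 1 - (B \ insert v Z).card) else 0) ≤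
        2 * (if Disjoint B O then tpow M (K + 1 - (B \ Z).card) else 0) := by
      by_cases hd : Disjoint B O
      · rw [if_pos hd, if_pos hd]
        by_cases hB : v ∈ B
        · have h1 : ¬ Disjoint B (insert v O) := by
            rw [Finset.disjoint_insert_right]
            exact fun h => h.1 hB
          rw [if_neg h1, Nat.zero_add]
          have h2 : (B \ Z).card = (B \ insert v Z).card + 1 := by
            have : B \ insert v Z = (B \ Z).erase v := by
              ext x
              simp only [Finset.mem_sdiff, Finset.mem_insert, Finset.mem_erase]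
              tauto
            rw [this, Finset.card_erase_of_mem (Finset.mem_sdiff.2 ⟨hB, hv⟩)]
            have : 0 < (B \ Z).card := Finset.card_pos.2 ⟨v, Finset.mem_sdiff.2 ⟨hB, hv⟩⟩
            omega
          rcases Nat.lt_or_ge (K + 1) (B \ Z).card with h3 | h3
          · have e1 : K + 1 - (B \ insert v Z).card = 0 := by omega
            have e2 : K + 1 - (B \ Z).card = 0 := by omega
            rw [e1, e2]
            omega
          · have e1 : K + 1 - (B \ insert v Z).card = (K + 1 - (B \ Z).card) + 1 := by omega
            rw [e1]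
            exact tpow_succ _ _
        · have h1 : Disjoint B (insert v O) := by
            rw [Finset.disjoint_insert_right]
            exact ⟨hB, hd⟩
          rw [if_pos h1]
          have h2 : B \ insert v Z = B \ Z := by
            ext x
            simp only [Finset.mem_sdiff, Finset.mem_insert]
            constructor
            · rintro ⟨hx, hxZ⟩
              exact ⟨hx, fun h => hxZ (Or.inr h)⟩
            · rintro ⟨hx, hxZ⟩
              refine ⟨hx, ?_⟩
              rintro (rfl | h)
              · exact hB hx
              · exact hxZ h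
          rw [h2]
          omega
      · have h1 : ¬ Disjoint B (insert v O) := fun h => hd (by
          rw [Finset.disjoint_insert_right] at h
          exact h.2)
        rw [if_neg hd, if_neg hd, if_neg h1]
    omega

theorem pot_eq (K M : ℕ) (F G : List (Finset (Fin n))) (s : Finset (Fin n) × Finset (Fin n)) :
    pot K M F G s = hpot K M F s.1 s.2 + hpot K M G s.2 s.1 := rfl

theorem pot_cstep (K M : ℕ) (F G : List (Finset (Fin n))) (s : Finset (Fin n) × Finset (Fin n))
    (v : Fin n) : pot K M F G (cstep K M F G s v) ≤ pot K M F G s := by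
  unfold cstep
  split_ifs with h1 h2
  · exact le_rfl
  · have a1 := hpot_step K M F s.1 s.2 v (fun h => h1 (Finset.mem_union_right _ h))
    have a2 := hpot_step K M G s.2 s.1 v (fun h => h1 (Finset.mem_union_left _ h))
    simp only [pot_eq] at h2 ⊢
    omega
  · have a1 := hpot_step K M F s.1 s.2 v (fun h => h1 (Finset.mem_union_right _ h))
    have a2 := hpot_step K M G s.2 s.1 v (fun h => h1 (Finset.mem_union_left _ h))
    simp only [pot_eq] at h2 ⊢
    omega

theorem cstep_le (K M : ℕ) (F G : List (Finset (Fin n))) (s : Finset (Fin n) × Finset (Fin n))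
    (v : Fin n) : s ≤ cstep K M F G s v := by
  unfold cstep
  split_ifs
  · exact le_rfl
  · exact ⟨Finset.subset_insert _ _, le_rfl⟩
  · exact ⟨le_rfl, Finset.subset_insert _ _⟩

theorem cstep_disj (K M : ℕ) (F G : List (Finset (Fin n))) (s : Finset (Fin n) × Finset (Fin n))
    (v : Fin n) (h : Disjoint s.1 s.2) :
    Disjoint (cstep K M F G s v).1 (cstep K M F G s v).2 := by
  unfold cstep
  split_ifs with h1 h2
  · exact h
  · rw [Finset.disjoint_insert_left]
    exact ⟨fun h3 => h1 (Finset.mem_union_right _ h3), h⟩
  · rw [Finset.disjoint_insert_right]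
    exact ⟨fun h3 => h1 (Finset.mem_union_left _ h3), h⟩

theorem mem_cstep (K M : ℕ) (F G : List (Finset (Fin n))) (s : Finset (Fin n) × Finset (Fin n))
    (v : Fin n) : v ∈ (cstep K M F G s v).1 ∪ (cstep K M F G s v).2 := by
  unfold cstep
  split_ifs with h1 h2
  · exact h1
  · exact Finset.mem_union_left _ (Finset.mem_insert_self _ _)
  · exact Finset.mem_union_right _ (Finset.mem_insert_self _ _)

theorem cexp_succ (K M : ℕ) (F G : List (Finset (Fin n))) (s : Finset (Fin n) × Finset (Fin n))
    (v : Fin n) : cexp K M F G s (v + 1) = cstep K M F G (cexp K M F G s v) v := by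
  rw [cexp, dif_pos v.2]

theorem cexp_mono (K M : ℕ) (F G : List (Finset (Fin n)))
    (s : Finset (Fin n) × Finset (Fin n)) : Monotone (cexp K M F G s) := by
  apply monotone_nat_of_le_succ
  intro i
  rw [cexp]
  split_ifs with h
  · exact cstep_le _ _ _ _ _ _
  · exact le_rfl

theorem cexp_pot (K M : ℕ) (F G : List (Finset (Fin n))) (s : Finset (Fin n) × Finset (Fin n))
    (i : ℕ) : pot K M F G (cexp K M F G s i) ≤ pot K M F G s := by
  induction i with
  | zero => exact le_rfl
  | succ i ih =>
    rw [cexp]
    split_ifs with h
    · exact (pot_cstep K M F G _ _).trans ih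
    · exact ih

theorem cexp_disj (K M : ℕ) (F G : List (Finset (Fin n))) (s : Finset (Fin n) × Finset (Fin n))
    (hs : Disjoint s.1 s.2) (i : ℕ) :
    Disjoint (cexp K M F G s i).1 (cexp K M F G s i).2 := by
  induction i with
  | zero => exact hs
  | succ i ih =>
    rw [cexp]
    split_ifs with h
    · exact cstep_disj _ _ _ _ _ _ ih
    · exact ih

theorem cexp_total (K M : ℕ) (F G : List (Finset (Fin n)))
    (s : Finset (Fin n) × Finset (Fin n)) (v : Fin n) :
    v ∈ (cexp K M F G s n).1 ∪ (cexp K M F G s n).2 := by
  have h1 : v ∈ (cexp K M F G s (v + 1)).1 ∪ (cexp K M F G s (v + 1)).2 := by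
    rw [cexp_succ]
    exact mem_cstep _ _ _ _ _ _
  have h2 := cexp_mono K M F G s (show (v : ℕ) + 1 ≤ n from v.2)
  rcases Finset.mem_union.1 h1 with h | h
  · exact Finset.mem_union_left _ (h2.1 h)
  · exact Finset.mem_union_right _ (h2.2 h)

theorem mem_le_sum {α : Type*} (F : List α) (f : α → ℕ) (B : α) (h : B ∈ F) :
    f B ≤ (F.map f).sum :=
  List.single_le_sum (fun x _ => Nat.zero_le x) _ (List.mem_map_of_mem h)

/-- A state of small potential is extended to a witness. -/
theorem cexp_wit (K M : ℕ) (F G : List (Finset (Fin n))) (s : Finset (Fin n) × Finset (Fin n))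
    (hs : Disjoint s.1 s.2) (hM : M ≤ 2 ^ (K + 1)) (hp : pot K M F G s < M) :
    Wit F G (cexp K M F G s n).1 := by
  have h1 := cexp_pot K M F G s n
  have h2 := cexp_disj K M F G s hs n
  have h3 := cexp_total K M F G s
  set r := cexp K M F G s n with hr
  have hlt : pot K M F G r < M := lt_of_le_of_lt h1 hp
  have ht : tpow M (K + 1) = M := min_eq_right hM
  rw [pot_eq] at hlt
  constructor
  · intro B hB
    by_contra hcon
    have hd : Disjoint B r.1 := by
      rw [Finset.not_nonempty_iff_eq_empty, ← Finset.disjoint_iff_inter_eq_empty] at hcon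
      exact hcon
    have he : B \ r.2 = ∅ := by
      rw [Finset.sdiff_eq_empty_iff_subset]
      intro x hx
      rcases Finset.mem_union.1 (h3 x) with h | h
      · exact absurd h (Finset.disjoint_left.1 hd hx)
      · exact h
    have := mem_le_sum F (fun B => if Disjoint B r.1 then tpow M (K + 1 - (B \ r.2).card) else 0)
      B hB
    simp only [if_pos hd, he, Finset.card_empty, Nat.sub_zero, ht] at this
    unfold hpot at hlt
    omega
  · intro A hA hAr
    have hd : Disjoint A r.2 := Finset.disjoint_of_subset_left hAr h2
    have he : A \ r.1 = ∅ := Finset.sdiff_eq_empty_iff_subset.2 hAr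
    have := mem_le_sum G (fun A => if Disjoint A r.2 then tpow M (K + 1 - (A \ r.1).card) else 0)
      A hA
    simp only [if_pos hd, he, Finset.card_empty, Nat.sub_zero, ht] at this
    unfold hpot at hlt
    omega

/-- If nothing is frequent in the rest of `G`, the remaining edges of `F` are large. -/
theorem large_of_not_freq (K : ℕ) (F G : List (Finset (Fin n)))
    (hcross : ∀ A ∈ G, ∀ B ∈ F, (A ∩ B).Nonempty) (O Z : Finset (Fin n))
    (h : ∀ v, v ∉ O ∪ Z → ¬ Freq K G Z v) (hpos : 0 < restc G Z) (B : Finset (Fin n))
    (hB : B ∈ F) (hd : Disjoint B O) : K < (B \ Z).card := by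
  by_contra hcon
  push Not at hcon
  have h1 : restc G Z ≤ ∑ v ∈ B \ Z, cntc G Z v := by
    unfold restc cntc
    clear hpos h
    induction G with
    | nil => simp
    | cons A G ih =>
      have ih' := ih (fun A' hA' => hcross A' (List.mem_cons_of_mem _ hA'))
      simp only [List.countP_cons]
      rw [Finset.sum_add_distrib]
      have h2 : (if decide (Disjoint A Z) = true then 1 else 0) ≤
          ∑ v ∈ B \ Z, if decide (Disjoint A Z ∧ v ∈ A) = true then 1 else 0 := by
        split_ifs with h3
        · have h3 := of_decide_eq_true h3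
          obtain ⟨a, ha⟩ := hcross A (by simp) B hB
          rw [Finset.mem_inter] at ha
          have haZ : a ∉ Z := Finset.disjoint_left.1 h3 ha.1
          have : (if decide (Disjoint A Z ∧ a ∈ A) = true then 1 else 0) = 1 := by
            rw [if_pos (decide_eq_true ⟨h3, ha.1⟩)]
          refine le_trans (le_of_eq this.symm) ?_
          exact Finset.single_le_sum (f := fun v => if decide (Disjoint A Z ∧ v ∈ A) = true then 1 else 0)
            (fun _ _ => Nat.zero_le _) (Finset.mem_sdiff.2 ⟨ha.2, haZ⟩)
        · exact Nat.zero_le _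
      omega
  have h2 : ∀ v ∈ B \ Z, K * cntc G Z v < restc G Z := by
    intro v hv
    have := h v (by
      intro hv'
      rcases Finset.mem_union.1 hv' with h | h
      · exact Finset.disjoint_left.1 hd (Finset.mem_sdiff.1 hv).1 h
      · exact (Finset.mem_sdiff.1 hv).2 h)
    unfold Freq at this
    omega
  rcases (B \ Z).eq_empty_or_nonempty with he | hne
  · rw [he] at h1
    simp at h1
    omega
  · have h3 : ∑ v ∈ B \ Z, K * cntc G Z v < ∑ v ∈ B \ Z, restc G Z :=
      Finset.sum_lt_sum_of_nonempty hne h2
    rw [← Finset.mul_sum, Finset.sum_const, smul_eq_mul] at h3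
    have h4 : K * restc G Z ≤ K * ∑ v ∈ B \ Z, cntc G Z v := Nat.mul_le_mul_left _ h1
    have h5 : (B \ Z).card * restc G Z ≤ K * restc G Z := Nat.mul_le_mul_right _ hcon
    omega

theorem hpot_large (K M : ℕ) (F : List (Finset (Fin n))) (O Z : Finset (Fin n))
    (h : ∀ B ∈ F, Disjoint B O → K < (B \ Z).card) : hpot K M F O Z ≤ F.length := by
  unfold hpot
  induction F with
  | nil => simp
  | cons B F ih =>
    simp only [List.map_cons, List.sum_cons, List.length_cons]
    have ih' := ih (fun B' hB' => h B' (List.mem_cons_of_mem _ hB'))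
    have h1 : (if Disjoint B O then tpow M (K + 1 - (B \ Z).card) else 0) ≤ 1 := by
      split_ifs with hd
      · have h2 := h B (by simp) hd
        have e : K + 1 - (B \ Z).card = 0 := by omega
        rw [e]
        unfold tpow
        simp
      · omega
    omega

/-- **The end of the mixed path.** -/
theorem terminal (K M : ℕ) (F G : List (Finset (Fin n)))
    (hcross : ∀ A ∈ G, ∀ B ∈ F, (A ∩ B).Nonempty) (s : Finset (Fin n) × Finset (Fin n))
    (hs : Ext F G s) (h1 : fst1 K F s = none) (h2 : fst2 K G s = none)
    (hM : M ≤ 2 ^ (K + 1)) (hM' : F.length + G.length < M) :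
    Wit F G (cexp K M F G s n).1 := by
  have hd := hs.disj
  unfold fst1 at h1
  unfold fst2 at h2
  rw [List.find?_eq_none] at h1 h2
  have g1 : ∀ v, v ∉ s.1 ∪ s.2 → ¬ Freq K F s.1 v := by
    intro v hv hf
    exact h1 v (List.mem_finRange v) (decide_eq_true ⟨hv, hf⟩)
  have g2 : ∀ v, v ∉ s.1 ∪ s.2 → ¬ Freq K G s.2 v := by
    intro v hv hf
    exact h2 v (List.mem_finRange v) (decide_eq_true ⟨hv, hf⟩)
  by_cases hall : ∀ v, v ∈ s.1 ∪ s.2
  · have he : ∀ i, cexp K M F G s i = s := by
      intro i
      induction i with
      | zero => rfl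
      | succ i ih =>
        rw [cexp]
        split_ifs with h
        · rw [ih]
          unfold cstep
          rw [if_pos (hall _)]
        · exact ih
    rw [he]
    obtain ⟨P, hP, hP1, hP2⟩ := hs
    have : P = s.1 := by
      apply Finset.Subset.antisymm _ hP1
      intro x hx
      rcases Finset.mem_union.1 (hall x) with h | h
      · exact h
      · exact absurd hx (Finset.disjoint_left.1 hP2 h)
    exact this ▸ hP
  · push Not at hall
    obtain ⟨v, hv⟩ := hall
    have p1 : 0 < restc F s.1 := by
      have := g1 v hv
      unfold Freq at this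
      omega
    have p2 : 0 < restc G s.2 := by
      have := g2 v hv
      unfold Freq at this
      omega
    apply cexp_wit K M F G s hd hM
    refine lt_of_le_of_lt ?_ hM'
    rw [pot_eq]
    have a1 := hpot_large K M F s.1 s.2
      (fun B hB hBd => large_of_not_freq K F G hcross s.1 s.2 g2 p2 B hB hBd)
    have a2 := hpot_large K M G s.2 s.1
      (fun A hA hAd => large_of_not_freq K G F
        (fun B hB A hA => by rw [Finset.inter_comm]; exact hcross A hA B hB) s.2 s.1
        (fun w hw => g1 w (by rw [Finset.union_comm]; exact hw)) p1 A hA hAd)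
    omega

end Pool.Agent.Helper66.SQ2
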