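import Mathlib
import Pool.Agent.Helper66.SQ2.Core

/-!
# The canonical mixed path

Default decisions unless no witness remains.  The forced vertices `X i` (ones) and `Y i` (zeros) are
critical for every witness extending the `i`-th state, there are few of them, and the path is
recovered by `msim` from any two predictors which contain the forced vertices and are never wrong.
-/

set_option autoImplicit false

namespace Pool.Agent.Helper66.SQ2

open Pool.Agent.Helper64.SQ

variable {n : ℕ}

namespace PathAux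

theorem fst1_some {K : ℕ} {F : List (Finset (Fin n))} {s : (Finset (Fin n) × Finset (Fin n))} {v : Fin n}
    (h : fst1 K F s = some v) : v ∉ s.1 ∪ s.2 ∧ Freq K F s.1 v := by
  have := List.find?_some h
  simpa using this

theorem fst2_some {K : ℕ} {G : List (Finset (Fin n))} {s : (Finset (Fin n) × Finset (Fin n))} {v : Fin n}
    (h : fst2 K G s = some v) : v ∉ s.1 ∪ s.2 ∧ Freq K G s.2 v := by
  have := List.find?_some h
  simpa using this

/-! ### The canonical path -/

open Classical in
/-- One step of the canonical path: state, forced ones, forced zeros. -/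
noncomputable def nstep (K : ℕ) (F G : List (Finset (Fin n)))
    (c : (Finset (Fin n) × Finset (Fin n)) × (Finset (Fin n) × Finset (Fin n))) : (Finset (Fin n) × Finset (Fin n)) × (Finset (Fin n) × Finset (Fin n)) :=
  match fst1 K F c.1 with
  | some v => if Ext F G (c.1.1, insert v c.1.2) then ((c.1.1, insert v c.1.2), c.2)
      else ((insert v c.1.1, c.1.2), (insert v c.2.1, c.2.2))
  | none =>
    match fst2 K G c.1 with
    | some v => if Ext F G (insert v c.1.1, c.1.2) then ((insert v c.1.1, c.1.2), c.2)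
        else ((c.1.1, insert v c.1.2), (c.2.1, insert v c.2.2))
    | none => c

/-- The canonical path. -/
noncomputable def cpath (K : ℕ) (F G : List (Finset (Fin n))) (s : (Finset (Fin n) × Finset (Fin n))) :
    ℕ → (Finset (Fin n) × Finset (Fin n)) × (Finset (Fin n) × Finset (Fin n))
  | 0 => (s, (∅, ∅))
  | i + 1 => nstep K F G (cpath K F G s i)

/-- `B` proves that `x` is critical for the witness `P` (with respect to `F`). -/
def Crit (F : List (Finset (Fin n))) (P : Finset (Fin n)) (x : Fin n) : Prop :=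
  ∃ B ∈ F, B ∩ P = {x}

/-- `s` is extended by the witness `P`. -/
def Wx (F G : List (Finset (Fin n))) (s : (Finset (Fin n) × Finset (Fin n))) (P : Finset (Fin n)) : Prop :=
  Wit F G P ∧ s.1 ⊆ P ∧ Disjoint s.2 P

theorem Wx.mono {F G : List (Finset (Fin n))} {s t : (Finset (Fin n) × Finset (Fin n))} {P : Finset (Fin n)}
    (h : Wx F G t P) (hst : s ≤ t) : Wx F G s P :=
  ⟨h.1, subset_trans hst.1 h.2.1, h.2.2.mono_left hst.2⟩

/-- A forced one is critical. -/
theorem crit_of_forced {F G : List (Finset (Fin n))} {s : (Finset (Fin n) × Finset (Fin n))} {v : Fin n}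
    (hv : v ∉ s.1 ∪ s.2) (h : ¬ Ext F G (s.1, insert v s.2)) {P : Finset (Fin n)}
    (hP : Wx F G (insert v s.1, s.2) P) : ∃ B ∈ F, B ∩ P = {v} := by
  obtain ⟨hw, h1, h2⟩ := hP
  by_contra hcon
  push Not at hcon
  apply h
  have hvP : v ∈ P := h1 (Finset.mem_insert_self _ _)
  refine ⟨P.erase v, ⟨?_, ?_⟩, ?_, ?_⟩
  · intro B hB
    obtain ⟨a, ha⟩ := hw.1 B hB
    have h3 : ∃ b ∈ B ∩ P, b ≠ v := by
      by_contra h4
      push Not at h4
      apply hcon B hB
      rw [Finset.eq_singleton_iff_unique_mem]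
      exact ⟨(h4 a ha) ▸ ha, h4⟩
    obtain ⟨b, hb, hbv⟩ := h3
    rw [Finset.mem_inter] at hb
    exact ⟨b, Finset.mem_inter.2 ⟨hb.1, Finset.mem_erase.2 ⟨hbv, hb.2⟩⟩⟩
  · intro A hA hAP
    exact hw.2 A hA (hAP.trans (Finset.erase_subset _ _))
  · intro a ha
    refine Finset.mem_erase.2 ⟨?_, h1 (Finset.mem_insert_of_mem ha)⟩
    rintro rfl
    exact hv (Finset.mem_union_left _ ha)
  · show Disjoint (insert v s.2) (P.erase v)
    rw [Finset.disjoint_insert_left]
    exact ⟨Finset.notMem_erase _ _, h2.mono_right (Finset.erase_subset _ _)⟩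

/-- A forced zero is critical. -/
theorem crit_of_forced' {F G : List (Finset (Fin n))} {s : (Finset (Fin n) × Finset (Fin n))} {v : Fin n}
    (hv : v ∉ s.1 ∪ s.2) (h : ¬ Ext F G (insert v s.1, s.2)) {P : Finset (Fin n)}
    (hP : Wx F G (s.1, insert v s.2) P) : ∃ A ∈ G, v ∈ A ∧ A ⊆ insert v P := by
  obtain ⟨hw, h1, h2⟩ := hP
  by_contra hcon
  push Not at hcon
  apply h
  have hvP : v ∉ P := Finset.disjoint_left.1 h2 (Finset.mem_insert_self _ _)
  refine ⟨insert v P, ⟨?_, ?_⟩, Finset.insert_subset_insert _ h1, ?_⟩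
  · intro B hB
    obtain ⟨a, ha⟩ := hw.1 B hB
    rw [Finset.mem_inter] at ha
    exact ⟨a, Finset.mem_inter.2 ⟨ha.1, Finset.mem_insert_of_mem ha.2⟩⟩
  · intro A hA hAP
    by_cases hvA : v ∈ A
    · exact hcon A hA hvA hAP
    · exact hw.2 A hA ((Finset.subset_insert_iff_of_notMem hvA).1 hAP)
  · show Disjoint s.2 (insert v P)
    rw [Finset.disjoint_insert_right]
    exact ⟨fun h' => hv (Finset.mem_union_right _ h'),
      h2.mono_left (Finset.subset_insert _ _)⟩

/-- The rest is not empty if a frequent vertex is forced. -/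
theorem rest_pos {F G : List (Finset (Fin n))} {s : (Finset (Fin n) × Finset (Fin n))} {v : Fin n}
    (hv : v ∉ s.1 ∪ s.2) (h : ¬ Ext F G (s.1, insert v s.2)) (hE : Ext F G s) :
    0 < restc F s.1 := by
  by_contra hcon
  have hvQ : ∀ P, Wx F G s P → v ∈ P := by
    intro P hP
    by_contra hvP
    exact h ⟨P, hP.1, hP.2.1, by
      rw [Finset.disjoint_insert_left]
      exact ⟨hvP, hP.2.2⟩⟩
  obtain ⟨P, hP⟩ := hE
  have h1 : Wx F G (insert v s.1, s.2) P :=
    ⟨hP.1, Finset.insert_subset (hvQ P hP) hP.2.1, hP.2.2⟩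
  obtain ⟨B, hB, hBP⟩ := crit_of_forced hv h h1
  apply hcon
  refine List.countP_pos_iff.2 ⟨B, hB, decide_eq_true ?_⟩
  rw [Finset.disjoint_left]
  intro a ha has
  have : a ∈ B ∩ P := Finset.mem_inter.2 ⟨ha, hP.2.1 has⟩
  rw [hBP, Finset.mem_singleton] at this
  subst this
  exact hv (Finset.mem_union_left _ has)

theorem rest_pos' {F G : List (Finset (Fin n))} {s : (Finset (Fin n) × Finset (Fin n))} {v : Fin n}
    (hv : v ∉ s.1 ∪ s.2) (h : ¬ Ext F G (insert v s.1, s.2)) (hE : Ext F G s) :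
    0 < restc G s.2 := by
  by_contra hcon
  have hvQ : ∀ P, Wx F G s P → v ∉ P := by
    intro P hP hvP
    exact h ⟨P, hP.1, Finset.insert_subset hvP hP.2.1, hP.2.2⟩
  obtain ⟨P, hP⟩ := hE
  have h1 : Wx F G (s.1, insert v s.2) P := ⟨hP.1, hP.2.1, by
    rw [Finset.disjoint_insert_left]
    exact ⟨hvQ P hP, hP.2.2⟩⟩
  obtain ⟨A, hA, hvA, hAP⟩ := crit_of_forced' hv h h1
  apply hcon
  refine List.countP_pos_iff.2 ⟨A, hA, decide_eq_true ?_⟩
  rw [Finset.disjoint_left]
  intro a ha has
  rcases Finset.mem_insert.1 (hAP ha) with h2 | h2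
  · subst h2
    exact hv (Finset.mem_union_right _ has)
  · exact Finset.disjoint_left.1 hP.2.2 has h2

/-- The count of forced vertices. -/
def Cnt (K : ℕ) (F : List (Finset (Fin n))) (P : Finset (Fin n)) (t : ℕ) : Prop :=
  K ^ t * restc F P ≤ (K - 1) ^ t * F.length ∧
    (t ≠ 0 → K ^ (t - 1) ≤ (K - 1) ^ (t - 1) * F.length)

theorem Cnt.mono {K : ℕ} {F : List (Finset (Fin n))} {P Q : Finset (Fin n)} {t : ℕ}
    (h : Cnt K F P t) (hPQ : P ⊆ Q) : Cnt K F Q t :=
  ⟨(Nat.mul_le_mul_left _ (restc_mono F hPQ)).trans h.1, h.2⟩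

theorem Cnt.step {K : ℕ} {F : List (Finset (Fin n))} {P : Finset (Fin n)} {t : ℕ} {v : Fin n}
    (h : Cnt K F P t) (hf : Freq K F P v) (hne : 0 < restc F P) :
    Cnt K F (insert v P) (t + 1) := by
  have hdec : K * restc F (insert v P) ≤ (K - 1) * restc F P := by
    have hsplit := restc_insert F P v
    unfold Freq at hf
    rcases Nat.eq_zero_or_pos K with hK | hK
    · subst hK
      omega
    obtain ⟨K, rfl⟩ : ∃ K', K = K' + 1 := ⟨K - 1, by omega⟩
    simp only [Nat.add_sub_cancel]
    nlinarith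
  refine ⟨?_, fun _ => ?_⟩
  · calc K ^ (t + 1) * restc F (insert v P) = K ^ t * (K * restc F (insert v P)) := by ring
      _ ≤ K ^ t * ((K - 1) * restc F P) := Nat.mul_le_mul_left _ hdec
      _ = (K - 1) * (K ^ t * restc F P) := by ring
      _ ≤ (K - 1) * ((K - 1) ^ t * F.length) := Nat.mul_le_mul_left _ h.1
      _ = (K - 1) ^ (t + 1) * F.length := by ring
  · rw [Nat.add_sub_cancel]
    exact (Nat.le_mul_of_pos_right _ hne).trans h.1

/-- The invariant of the canonical path. -/
structure Inv (K : ℕ) (F G : List (Finset (Fin n))) (c : (Finset (Fin n) × Finset (Fin n)) × (Finset (Fin n) × Finset (Fin n))) : Prop where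
  ext : Ext F G c.1
  sub1 : c.2.1 ⊆ c.1.1
  sub2 : c.2.2 ⊆ c.1.2
  crit1 : ∀ x ∈ c.2.1, ∀ P, Wx F G c.1 P → ∃ B ∈ F, B ∩ P = {x}
  crit2 : ∀ y ∈ c.2.2, ∀ P, Wx F G c.1 P → ∃ A ∈ G, y ∈ A ∧ A ⊆ insert y P
  cnt1 : Cnt K F c.1.1 c.2.1.card
  cnt2 : Cnt K G c.1.2 c.2.2.card

theorem inv_step {K : ℕ} {F G : List (Finset (Fin n))} {c : (Finset (Fin n) × Finset (Fin n)) × (Finset (Fin n) × Finset (Fin n))}
    (h : Inv K F G c) : Inv K F G (nstep K F G c) := by
  obtain ⟨⟨P, hP⟩, h2, h3, h4, h5, h6, h7⟩ := h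
  have hP' : Wx F G c.1 P := hP
  unfold nstep
  cases hf1 : fst1 K F c.1 with
  | some v =>
    obtain ⟨hv, hfr⟩ := fst1_some hf1
    have hv1 : v ∉ c.1.1 := fun h => hv (Finset.mem_union_left _ h)
    simp only
    split_ifs with hE
    · have hle : c.1 ≤ (c.1.1, insert v c.1.2) := ⟨le_rfl, Finset.subset_insert _ _⟩
      exact ⟨hE, h2, h3.trans (Finset.subset_insert _ _),
        fun x hx Q hQ => h4 x hx Q (hQ.mono hle), fun y hy Q hQ => h5 y hy Q (hQ.mono hle),
        h6, h7.mono (Finset.subset_insert _ _)⟩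
    · have hle : c.1 ≤ (insert v c.1.1, c.1.2) := ⟨Finset.subset_insert _ _, le_rfl⟩
      have hvP : v ∈ P := by
        by_contra hvP
        exact hE ⟨P, hP.1, hP.2.1, by
          rw [Finset.disjoint_insert_left]
          exact ⟨hvP, hP.2.2⟩⟩
      refine ⟨⟨P, hP.1, Finset.insert_subset hvP hP.2.1, hP.2.2⟩,
        Finset.insert_subset_insert _ h2, h3, ?_,
        fun y hy Q hQ => h5 y hy Q (hQ.mono hle), ?_, h7⟩
      · intro x hx Q hQ
        rcases Finset.mem_insert.1 hx with rfl | hx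
        · exact crit_of_forced hv hE hQ
        · exact h4 x hx Q (hQ.mono hle)
      · have hvX : v ∉ c.2.1 := fun h => hv1 (h2 h)
        show Cnt K F (insert v c.1.1) (insert v c.2.1).card
        rw [Finset.card_insert_of_notMem hvX]
        exact h6.step hfr (rest_pos hv hE ⟨P, hP⟩)
  | none =>
    simp only
    cases hf2 : fst2 K G c.1 with
    | some v =>
      obtain ⟨hv, hfr⟩ := fst2_some hf2
      have hv2 : v ∉ c.1.2 := fun h => hv (Finset.mem_union_right _ h)
      simp only
      split_ifs with hE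
      · have hle : c.1 ≤ (insert v c.1.1, c.1.2) := ⟨Finset.subset_insert _ _, le_rfl⟩
        exact ⟨hE, h2.trans (Finset.subset_insert _ _), h3,
          fun x hx Q hQ => h4 x hx Q (hQ.mono hle), fun y hy Q hQ => h5 y hy Q (hQ.mono hle),
          h6.mono (Finset.subset_insert _ _), h7⟩
      · have hle : c.1 ≤ (c.1.1, insert v c.1.2) := ⟨le_rfl, Finset.subset_insert _ _⟩
        have hvP : v ∉ P := by
          intro hvP
          exact hE ⟨P, hP.1, Finset.insert_subset hvP hP.2.1, hP.2.2⟩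
        refine ⟨⟨P, hP.1, hP.2.1, ?_⟩, h2, Finset.insert_subset_insert _ h3,
          fun x hx Q hQ => h4 x hx Q (hQ.mono hle), ?_, h6, ?_⟩
        · show Disjoint (insert v c.1.2) P
          rw [Finset.disjoint_insert_left]
          exact ⟨hvP, hP.2.2⟩
        · intro y hy Q hQ
          rcases Finset.mem_insert.1 hy with rfl | hy
          · exact crit_of_forced' hv hE hQ
          · exact h5 y hy Q (hQ.mono hle)
        · have hvX : v ∉ c.2.2 := fun h => hv2 (h3 h)
          show Cnt K G (insert v c.1.2) (insert v c.2.2).card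
          rw [Finset.card_insert_of_notMem hvX]
          exact h7.step hfr (rest_pos' hv hE ⟨P, hP⟩)
    | none => exact ⟨⟨P, hP⟩, h2, h3, h4, h5, h6, h7⟩

theorem inv_path {K : ℕ} {F G : List (Finset (Fin n))} {s : (Finset (Fin n) × Finset (Fin n))} (hE : Ext F G s) (i : ℕ) :
    Inv K F G (cpath K F G s i) := by
  induction i with
  | zero =>
    refine ⟨hE, by simp [cpath], by simp [cpath], by simp [cpath], by simp [cpath],
      ⟨?_, by simp [cpath]⟩, ⟨?_, by simp [cpath]⟩⟩
    · simpa [cpath] using restc_le F _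
    · simpa [cpath] using restc_le G _
  | succ i ih => exact inv_step ih

theorem nstep_le (K : ℕ) (F G : List (Finset (Fin n))) (c : (Finset (Fin n) × Finset (Fin n)) × (Finset (Fin n) × Finset (Fin n))) :
    c ≤ nstep K F G c := by
  unfold nstep
  cases fst1 K F c.1 with
  | some v =>
    simp only
    split_ifs
    · exact ⟨⟨le_rfl, Finset.subset_insert _ _⟩, le_rfl⟩
    · exact ⟨⟨Finset.subset_insert _ _, le_rfl⟩, ⟨Finset.subset_insert _ _, le_rfl⟩⟩
  | none =>
    simp only
    cases fst2 K G c.1 with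
    | some v =>
      simp only
      split_ifs
      · exact ⟨⟨Finset.subset_insert _ _, le_rfl⟩, le_rfl⟩
      · exact ⟨⟨le_rfl, Finset.subset_insert _ _⟩, ⟨le_rfl, Finset.subset_insert _ _⟩⟩
    | none => exact le_rfl

theorem cpath_mono (K : ℕ) (F G : List (Finset (Fin n))) (s : (Finset (Fin n) × Finset (Fin n))) :
    Monotone (cpath K F G s) :=
  monotone_nat_of_le_succ fun i => nstep_le K F G (cpath K F G s i)

/-- One step is decoded by good predictors. -/
theorem mstep_eq {K : ℕ} {F G : List (Finset (Fin n))}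
    {c : (Finset (Fin n) × Finset (Fin n)) × (Finset (Fin n) × Finset (Fin n))}
    {CA CB : Finset (Fin n)} (h1 : (nstep K F G c).2.1 ⊆ CA)
    (h2 : Disjoint CA (nstep K F G c).1.2) (h3 : (nstep K F G c).2.2 ⊆ CB)
    (h4 : Disjoint CB (nstep K F G c).1.1) : mstep K F G CA CB c.1 = (nstep K F G c).1 := by
  unfold nstep at *
  unfold mstep put
  cases hf1 : fst1 K F c.1 with
  | some v =>
    rw [hf1] at h1 h2 h3 h4
    simp only at *
    by_cases hE : Ext F G (c.1.1, insert v c.1.2)
    · rw [if_pos hE] at h2 ⊢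
      rw [if_neg]
      rw [decide_eq_true_eq]
      intro hv
      exact Finset.disjoint_left.1 h2 hv (Finset.mem_insert_self _ _)
    · rw [if_neg hE] at h1 ⊢
      rw [if_pos (decide_eq_true (h1 (Finset.mem_insert_self _ _)))]
  | none =>
    rw [hf1] at h1 h2 h3 h4
    simp only at *
    cases hf2 : fst2 K G c.1 with
    | some v =>
      rw [hf2] at h1 h2 h3 h4
      simp only at *
      by_cases hE : Ext F G (insert v c.1.1, c.1.2)
      · rw [if_pos hE] at h4 ⊢
        rw [if_pos]
        rw [decide_eq_true_eq]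
        intro hv
        exact Finset.disjoint_left.1 h4 hv (Finset.mem_insert_self _ _)
      · rw [if_neg hE] at h3 ⊢
        rw [if_neg]
        rw [decide_eq_true_eq]
        exact fun h => h (h3 (Finset.mem_insert_self _ _))
    | none => rfl

/-- The path is decoded by good predictors. -/
theorem msim_eq {K : ℕ} {F G : List (Finset (Fin n))} {CA CB : Finset (Fin n)}
    (i : ℕ) (h1 : (cpath K F G (∅, ∅) i).2.1 ⊆ CA)
    (h2 : Disjoint CA (cpath K F G (∅, ∅) i).1.2)
    (h3 : (cpath K F G (∅, ∅) i).2.2 ⊆ CB) (h4 : Disjoint CB (cpath K F G (∅, ∅) i).1.1) :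
    ∀ j ≤ i, msim K F G CA CB j = (cpath K F G (∅, ∅) j).1 := by
  intro j hj
  induction j with
  | zero => rfl
  | succ j ih =>
    have hm := cpath_mono K F G (∅, ∅) hj
    rw [msim, ih (by omega)]
    exact mstep_eq (hm.2.1.trans h1) (h2.mono_right hm.1.2) (hm.2.2.trans h3)
      (h4.mono_right hm.1.1)

/-- The path is at its end. -/
def Term (K : ℕ) (F G : List (Finset (Fin n))) (s : (Finset (Fin n) × Finset (Fin n))) : Prop :=
  fst1 K F s = none ∧ fst2 K G s = none

theorem nstep_term {K : ℕ} {F G : List (Finset (Fin n))} {c : (Finset (Fin n) × Finset (Fin n)) × (Finset (Fin n) × Finset (Fin n))}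
    (h : Term K F G c.1) : nstep K F G c = c := by
  unfold nstep
  rw [h.1, h.2]

theorem nstep_card {K : ℕ} {F G : List (Finset (Fin n))} {c : (Finset (Fin n) × Finset (Fin n)) × (Finset (Fin n) × Finset (Fin n))}
    (h : ¬ Term K F G c.1) :
    (c.1.1 ∪ c.1.2).card + 1 ≤ ((nstep K F G c).1.1 ∪ (nstep K F G c).1.2).card := by
  unfold nstep
  cases hf1 : fst1 K F c.1 with
  | some v =>
    obtain ⟨hv, -⟩ := fst1_some hf1
    simp only
    split_ifs
    · rw [Finset.union_insert, Finset.card_insert_of_notMem hv]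
    · rw [Finset.insert_union, Finset.card_insert_of_notMem hv]
  | none =>
    simp only
    cases hf2 : fst2 K G c.1 with
    | some v =>
      obtain ⟨hv, -⟩ := fst2_some hf2
      simp only
      split_ifs
      · rw [Finset.insert_union, Finset.card_insert_of_notMem hv]
      · rw [Finset.union_insert, Finset.card_insert_of_notMem hv]
    | none => exact absurd ⟨hf1, hf2⟩ h

theorem cpath_term (K : ℕ) (F G : List (Finset (Fin n))) (s : (Finset (Fin n) × Finset (Fin n))) :
    Term K F G (cpath K F G s n).1 := by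
  have key : ∀ i, Term K F G (cpath K F G s i).1 ∨
      i ≤ ((cpath K F G s i).1.1 ∪ (cpath K F G s i).1.2).card := by
    intro i
    induction i with
    | zero => exact Or.inr (Nat.zero_le _)
    | succ i ih =>
      by_cases hT : Term K F G (cpath K F G s i).1
      · left
        rw [cpath, nstep_term hT]
        exact hT
      · right
        have h1 := nstep_card hT
        rw [cpath]
        have h2 := ih.resolve_left hT
        omega
  rcases key n with h | h
  · exact h
  · have hu : (cpath K F G s n).1.1 ∪ (cpath K F G s n).1.2 = Finset.univ := by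
      apply Finset.eq_univ_of_card
      have hc := Finset.card_le_univ ((cpath K F G s n).1.1 ∪ (cpath K F G s n).1.2)
      rw [Fintype.card_fin] at hc ⊢
      exact le_antisymm hc h
    constructor
    · rw [Option.eq_none_iff_forall_ne_some]
      intro v hv
      exact (fst1_some hv).1 (by rw [hu]; exact Finset.mem_univ v)
    · rw [Option.eq_none_iff_forall_ne_some]
      intro v hv
      exact (fst2_some hv).1 (by rw [hu]; exact Finset.mem_univ v)


end PathAux

open PathAux in
/-- The canonical mixed path: default decisions unless no witness remains. -/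
theorem path (K : ℕ) (hK : 2 ≤ K) (F G : List (Finset (Fin n))) (m : ℕ) (hF : F.length < 2 ^ m)
    (hG : G.length < 2 ^ m) (hs : Ext F G ((∅ : Finset (Fin n)), (∅ : Finset (Fin n)))) :
    ∃ (cp : ℕ → Finset (Fin n) × Finset (Fin n)) (X Y : ℕ → Finset (Fin n)) (b : ℕ → Bool),
      cp 0 = (∅, ∅) ∧ X 0 = ∅ ∧ Y 0 = ∅ ∧
      (∀ i, Ext F G (cp i)) ∧
      (∀ i, cp (i + 1) = fstep K F G (b i) (cp i)) ∧
      (∀ i, (X i).card ≤ K * m ∧ (Y i).card ≤ K * m) ∧
      (∀ i, ∀ P, Wit F G P → (cp i).1 ⊆ P → Disjoint (cp i).2 P →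
        (∀ x ∈ X i, ∃ B ∈ F, B ∩ P = {x}) ∧ (∀ y ∈ Y i, ∃ A ∈ G, A ∩ Pᶜ = {y})) ∧
      (∀ i, ∀ CA CB : Finset (Fin n), X i ⊆ CA → Disjoint (cp i).2 CA → Y i ⊆ CB →
        Disjoint (cp i).1 CB → msim K F G CA CB i = cp i) ∧
      fst1 K F (cp n) = none ∧ fst2 K G (cp n) = none := by
  have hinv := fun i => inv_path (K := K) hs i
  have hb : ∀ i, ∃ b : Bool, (cpath K F G (∅, ∅) (i + 1)).1 =
      fstep K F G b (cpath K F G (∅, ∅) i).1 := by
    intro i
    rw [cpath]
    unfold nstep fstep
    cases hf1 : fst1 K F (cpath K F G (∅, ∅) i).1 with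
    | some v =>
      simp only
      split_ifs
      · exact ⟨false, by simp [put]⟩
      · exact ⟨true, by simp [put]⟩
    | none =>
      simp only
      cases hf2 : fst2 K G (cpath K F G (∅, ∅) i).1 with
      | some v =>
        simp only
        split_ifs
        · exact ⟨true, by simp [put]⟩
        · exact ⟨false, by simp [put]⟩
      | none => exact ⟨true, rfl⟩
  choose b hb using hb
  refine ⟨fun i => (cpath K F G (∅, ∅) i).1, fun i => (cpath K F G (∅, ∅) i).2.1,
    fun i => (cpath K F G (∅, ∅) i).2.2, b, rfl, rfl, rfl, fun i => (hinv i).ext, hb,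
    fun i => ⟨card_bound K _ _ m hK hF (hinv i).cnt1.2, card_bound K _ _ m hK hG (hinv i).cnt2.2⟩,
    ?_, ?_, cpath_term K F G (∅, ∅)⟩
  · intro i P hP h1 h2
    refine ⟨fun x hx => (hinv i).crit1 x hx P ⟨hP, h1, h2⟩, fun y hy => ?_⟩
    obtain ⟨A, hA, hyA, hAP⟩ := (hinv i).crit2 y hy P ⟨hP, h1, h2⟩
    refine ⟨A, hA, ?_⟩
    have hyP : y ∉ P := Finset.disjoint_left.1 h2 ((hinv i).sub2 hy)
    rw [Finset.eq_singleton_iff_unique_mem]
    refine ⟨Finset.mem_inter.2 ⟨hyA, Finset.mem_compl.2 hyP⟩, ?_⟩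
    intro a ha
    rw [Finset.mem_inter, Finset.mem_compl] at ha
    exact (Finset.mem_insert.1 (hAP ha.1)).resolve_right ha.2
  · intro i CA CB h1 h2 h3 h4
    exact msim_eq i h1 h2.symm h3 h4.symm i le_rfl

end Pool.Agent.Helper66.SQ2
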