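import Mathlib
import Pool.Agent.Helper66.SQ2.Path

/-!
# The candidates of the mixed decoder are complete
-/

set_option autoImplicit false

namespace Pool.Agent.Helper66.SQ2

open Pool.Agent.Helper64.SQ

variable {n : ℕ}

/-! ### Two greedy covers -/

/-- Few sets cover `X`, or every set misses almost all of a subset of `X`. -/
theorem cover_or {α β : Type*} [DecidableEq α] (K : ℕ) (hK : 2 ≤ K) (S : β → Prop)
    (a : β → Finset α) (X : Finset α) (u : ℕ) (hX : X.card < 2 ^ u) :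
    (∃ As : List β, (∀ y ∈ As, S y) ∧ As.length ≤ K * u ∧ ∀ x ∈ X, ∃ y ∈ As, x ∈ a y) ∨
    (∃ Q ⊆ X, Q.Nonempty ∧ ∀ y, S y → K * (Q ∩ a y).card < Q.card) := by
  by_contra hcon
  push Not at hcon
  obtain ⟨h1, h2⟩ := hcon
  have key : ∀ j, ∃ (As : List β) (Q : Finset α), (∀ y ∈ As, S y) ∧ As.length ≤ j ∧ Q ⊆ X ∧
      (∀ x ∈ X, x ∈ Q ∨ ∃ y ∈ As, x ∈ a y) ∧ K ^ j * Q.card ≤ (K - 1) ^ j * X.card := by
    intro j
    induction j with
    | zero => exact ⟨[], X, by simp, by simp, subset_rfl, fun x hx => Or.inl hx, by simp⟩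
    | succ j ih =>
      obtain ⟨As, Q, hA, hl, hQ, hc, hb⟩ := ih
      rcases Q.eq_empty_or_nonempty with he | hne
      · exact ⟨As, Q, hA, by omega, hQ, hc, by rw [he]; simp⟩
      · obtain ⟨y, hy, hyc⟩ := h2 Q hQ hne
        refine ⟨y :: As, Q \ a y, ?_, by simp only [List.length_cons]; omega,
          Finset.sdiff_subset.trans hQ, ?_, ?_⟩
        · intro z hz
          rcases List.mem_cons.1 hz with rfl | hz
          · exact hy
          · exact hA z hz
        · intro x hx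
          rcases hc x hx with h | ⟨z, hz, hxz⟩
          · by_cases hxy : x ∈ a y
            · exact Or.inr ⟨y, by simp, hxy⟩
            · exact Or.inl (Finset.mem_sdiff.2 ⟨h, hxy⟩)
          · exact Or.inr ⟨z, List.mem_cons_of_mem _ hz, hxz⟩
        · have e1 : (Q \ a y).card + (Q ∩ a y).card = Q.card := Finset.card_sdiff_add_card_inter Q (a y)
          obtain ⟨k, rfl⟩ : ∃ k, K = k + 1 := ⟨K - 1, by omega⟩
          rw [Nat.add_sub_cancel] at hb ⊢
          have e2 : (k + 1) * (Q \ a y).card ≤ k * Q.card := by nlinarith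
          calc (k + 1) ^ (j + 1) * (Q \ a y).card = (k + 1) ^ j * ((k + 1) * (Q \ a y).card) := by ring
            _ ≤ (k + 1) ^ j * (k * Q.card) := Nat.mul_le_mul_left _ e2
            _ = k * ((k + 1) ^ j * Q.card) := by ring
            _ ≤ k * (k ^ j * X.card) := Nat.mul_le_mul_left _ hb
            _ = k ^ (j + 1) * X.card := by ring
  obtain ⟨As, Q, hA, hl, hQ, hc, hb⟩ := key (K * u)
  rcases Q.eq_empty_or_nonempty with he | hne
  · obtain ⟨x, hx, hxn⟩ := h1 As hA hl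
    rcases hc x hx with h | ⟨y, hy, hxy⟩
    · rw [he] at h
      exact absurd h (Finset.notMem_empty x)
    · exact hxn y hy hxy
  · have h3 : K * u + 1 ≤ K * u := by
      apply card_bound K X.card (K * u + 1) u hK hX
      intro _
      rw [Nat.add_sub_cancel]
      exact (Nat.le_mul_of_pos_right _ (Finset.card_pos.2 hne)).trans hb
    omega

/-- If every point lies in almost all sets, few sets cover. -/
theorem cover_fast {α β : Type*} [DecidableEq α] [DecidableEq β] (K : ℕ) (b : α → Finset β)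
    (Q : Finset α) (t : ℕ) : ∀ T : Finset β,
    (∀ y ∈ T, K * (Q.filter fun x => y ∉ b x).card < Q.card) → T.card < K ^ t →
    ∃ Cs : List α, (∀ x ∈ Cs, x ∈ Q) ∧ Cs.length ≤ t ∧ ∀ y ∈ T, ∃ x ∈ Cs, y ∈ b x := by
  induction t with
  | zero =>
    intro T _ hT
    have : T = ∅ := by
      rw [← Finset.card_eq_zero]
      simpa using hT
    subst this
    exact ⟨[], by simp, by simp, by simp⟩
  | succ t ih =>
    intro T hT hc
    rcases T.eq_empty_or_nonempty with rfl | hne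
    · exact ⟨[], by simp, by simp, by simp⟩
    · obtain ⟨x, hx, hxc⟩ : ∃ x ∈ Q, K * (T \ b x).card < T.card := by
        by_contra hcon
        push Not at hcon
        have h1 : ∑ x ∈ Q, (T \ b x).card = ∑ y ∈ T, (Q.filter fun x => y ∉ b x).card := by
          have e : ∀ x ∈ Q, (T \ b x).card = ∑ y ∈ T, if y ∉ b x then 1 else 0 := by
            intro x _
            rw [← Finset.card_filter]
            congr 1
            ext y
            simp [Finset.mem_sdiff]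
          rw [Finset.sum_congr rfl e, Finset.sum_comm]
          apply Finset.sum_congr rfl
          intro y _
          rw [Finset.card_filter]
        have h2 : Q.card * T.card ≤ K * ∑ x ∈ Q, (T \ b x).card := by
          rw [Finset.mul_sum, ← smul_eq_mul, ← Finset.sum_const]
          exact Finset.sum_le_sum hcon
        have h3 : K * ∑ y ∈ T, (Q.filter fun x => y ∉ b x).card < T.card * Q.card := by
          rw [Finset.mul_sum, ← smul_eq_mul, ← Finset.sum_const]
          exact Finset.sum_lt_sum_of_nonempty hne hT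
        rw [h1] at h2
        rw [mul_comm Q.card] at h2
        omega
      obtain ⟨Cs, h1, h2, h3⟩ := ih (T \ b x) (fun y hy => hT y (Finset.sdiff_subset hy)) (by
        rw [pow_succ, mul_comm] at hc
        exact lt_of_mul_lt_mul_left (hxc.trans hc) (Nat.zero_le K))
      refine ⟨x :: Cs, ?_, by simp only [List.length_cons]; omega, ?_⟩
      · intro z hz
        rcases List.mem_cons.1 hz with rfl | hz
        · exact hx
        · exact h1 z hz
      · intro y hy
        by_cases hyb : y ∈ b x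
        · exact ⟨x, by simp, hyb⟩
        · obtain ⟨z, hz, hyz⟩ := h3 y (Finset.mem_sdiff.2 ⟨hy, hyb⟩)
          exact ⟨z, List.mem_cons_of_mem _ hz, hyz⟩

/-! ### Covers by critical edges -/

/-- `X` is covered by `c` edges which are critical for a witness extending `s`. -/
def Cov (F G : List (Finset (Fin n))) (s : Finset (Fin n) × Finset (Fin n))
    (X : Finset (Fin n)) (c : ℕ) : Prop :=
  ∃ P, Wit F G P ∧ s.1 ⊆ P ∧ Disjoint s.2 P ∧ ∃ As : List (Fin n × Finset (Fin n)),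
    As.length ≤ c ∧ (∀ p ∈ As, p.2 ∈ G ∧ p.1 ∉ P ∧ p.2 ⊆ insert p.1 P) ∧ X ⊆ uni As

theorem mem_uni (X : List (Fin n × Finset (Fin n))) (j : Fin n) :
    j ∈ uni X ↔ ∃ p ∈ X, j ≠ p.1 ∧ j ∈ p.2 := by
  unfold uni
  simp

theorem Cov.out {F G : List (Finset (Fin n))} {s : Finset (Fin n) × Finset (Fin n)}
    {X : Finset (Fin n)} {c : ℕ} (h : Cov F G s X c) :
    ∃ As : List (Fin n × Finset (Fin n)), (∀ p ∈ As, p.2 ∈ G) ∧ As.length ≤ c ∧ X ⊆ uni As ∧
      Disjoint s.2 (uni As) := by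
  obtain ⟨P, -, -, h2, As, hl, hA, hX⟩ := h
  refine ⟨As, fun p hp => (hA p hp).1, hl, hX, ?_⟩
  refine h2.mono_right ?_
  intro j hj
  rw [mem_uni] at hj
  obtain ⟨p, hp, hjp, hj⟩ := hj
  exact (Finset.mem_insert.1 ((hA p hp).2.2 hj)).resolve_left hjp

/-- **Phase 2.** If `X` is not covered at `s`, a witness is decoded from `t + e` pairs. -/
theorem phase2 (K₁ K₂ : ℕ) (hK₁ : 2 ≤ K₁) (hK₂ : 2 ≤ K₂) (F G : List (Finset (Fin n)))
    (hcross : ∀ A ∈ G, ∀ B ∈ F, (A ∩ B).Nonempty) (m e u t : ℕ) (hG : G.length < 2 ^ m)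
    (hGe : G.length < K₂ ^ e) (s : Finset (Fin n) × Finset (Fin n)) (hs : Ext F G s)
    (X : Finset (Fin n)) (hX : X.card < 2 ^ u)
    (hcrit : ∀ P, Wit F G P → s.1 ⊆ P → Disjoint s.2 P → ∀ x ∈ X, ∃ B ∈ F, B ∩ P = {x})
    (ht : K₂ * m < K₁ ^ t) (hnot : ¬ Cov F G s X (K₁ * u)) :
    ∃ Cs Y : List (Fin n × Finset (Fin n)), (∀ p ∈ Cs, p.2 ∈ F) ∧ Cs.length ≤ t ∧
      (∀ p ∈ Y, p.2 ∈ F) ∧ Y.length ≤ e ∧
      Wit F G (sim K₂ G (uni Cs) Y s.swap n).2 ∧
      (sim K₂ G (uni Cs) Y s.swap n).1 = (sim K₂ G (uni Cs) Y s.swap n).2ᶜ := by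
  classical
  have hcross' : ∀ B ∈ F, ∀ A ∈ G, (B ∩ A).Nonempty := fun B hB A hA => by
    rw [Finset.inter_comm]
    exact hcross A hA B hB
  obtain ⟨T, Y, hY, hYl, hTc, hE, hT0, hT⟩ := phase K₂ hK₂ G F hcross' m e hG hGe s.swap hs.swap
  set r := sim K₂ G T Y s.swap n with hr
  obtain ⟨Z, hZ, hZ1, hZ2⟩ := hE n le_rfl
  rw [← hr] at hZ1 hZ2
  have htot : ∀ v, v ∈ r.1 ∪ r.2 := sim_total K₂ G T Y s.swap
  have hZr : Z = r.1 := by
    apply Finset.Subset.antisymm _ hZ1
    intro z hz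
    rcases Finset.mem_union.1 (htot z) with h | h
    · exact h
    · exact absurd hz (Finset.disjoint_left.1 hZ2 h)
  have hPr : r.1 = r.2ᶜ := by
    ext z
    rw [Finset.mem_compl]
    constructor
    · intro h1 h2
      exact Finset.disjoint_left.1 hZ2 h2 (hZ1 h1)
    · intro h
      exact (Finset.mem_union.1 (htot z)).resolve_right h
  have hW : Wit F G r.2 := by
    have := wit_compl hZ
    rw [hZr, hPr, compl_compl] at this
    exact this
  have hm := sim_mono K₂ G T Y s.swap (Nat.zero_le n)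
  have hm1 : s.2 ⊆ r.1 := hm.1
  have hm2 : s.1 ⊆ r.2 := hm.2
  have hd : Disjoint s.2 r.2 := by
    rw [Finset.disjoint_left]
    intro z hz hz2
    have := hm1 hz
    rw [hPr, Finset.mem_compl] at this
    exact this hz2
  have hAy : ∀ y ∈ T, ∃ A ∈ G, A ∩ r.1 = {y} := fun y hy => by
    refine hT n r.1 (hZr ▸ hZ) le_rfl ?_ y hy y.2
    rw [Finset.disjoint_left]
    intro z hz hz2
    rw [hPr, Finset.mem_compl] at hz2
    exact hz2 hz
  have hBx := hcrit r.2 hW hm2 hd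
  choose! a haG ha using hAy
  choose! b hbF hb using hBx
  have hTP : ∀ y ∈ T, y ∉ r.2 := by
    intro y hy hy2
    have : y ∈ a y ∩ r.1 := by rw [ha y hy]; simp
    rw [Finset.mem_inter, hPr, Finset.mem_compl] at this
    exact this.2 hy2
  have hXP : ∀ x ∈ X, x ∈ r.2 := by
    intro x hx
    have : x ∈ b x ∩ r.2 := by rw [hb x hx]; simp
    exact (Finset.mem_inter.1 this).2
  rcases cover_or K₁ hK₁
    (fun p : Fin n × Finset (Fin n) => p.2 ∈ G ∧ p.1 ∉ r.2 ∧ p.2 ⊆ insert p.1 r.2)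
    (fun p => p.2.erase p.1) X u hX with ⟨As, h1, h2, h3⟩ | ⟨Q, hQX, -, hsat⟩
  · exfalso
    apply hnot
    refine ⟨r.2, hW, hm2, hd, As, h2, h1, ?_⟩
    intro x hx
    obtain ⟨p, hp, hxp⟩ := h3 x hx
    rw [Finset.mem_erase] at hxp
    rw [mem_uni]
    exact ⟨p, hp, hxp.1, hxp.2⟩
  · obtain ⟨Cs, hC1, hC2, hC3⟩ := cover_fast K₁ b Q t T (by
      intro y hy
      refine lt_of_le_of_lt ?_ (hsat (y, a y) ⟨haG y hy, hTP y hy, ?_⟩)
      · apply Nat.mul_le_mul_left
        apply Finset.card_le_card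
        intro x hx
        rw [Finset.mem_filter] at hx
        have hxX := hQX hx.1
        obtain ⟨z, hz⟩ := hcross (a y) (haG y hy) (b x) (hbF x hxX)
        rw [Finset.mem_inter] at hz
        by_cases hzP : z ∈ r.2
        · have : z ∈ b x ∩ r.2 := Finset.mem_inter.2 ⟨hz.2, hzP⟩
          rw [hb x hxX, Finset.mem_singleton] at this
          subst this
          refine Finset.mem_inter.2 ⟨hx.1, Finset.mem_erase.2 ⟨?_, hz.1⟩⟩
          rintro rfl
          exact hTP _ hy hzP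
        · exfalso
          have : z ∈ a y ∩ r.1 := Finset.mem_inter.2 ⟨hz.1, by rw [hPr, Finset.mem_compl]; exact hzP⟩
          rw [ha y hy, Finset.mem_singleton] at this
          subst this
          exact hx.2 hz.2
      · intro z hz
        by_cases hzP : z ∈ r.2
        · exact Finset.mem_insert_of_mem hzP
        · have : z ∈ a y ∩ r.1 := Finset.mem_inter.2 ⟨hz, by rw [hPr, Finset.mem_compl]; exact hzP⟩
          rw [ha y hy, Finset.mem_singleton] at this
          rw [this]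
          exact Finset.mem_insert_self _ _) (lt_of_le_of_lt hTc ht)
    have e1 : sim K₂ G (uni (Cs.map fun x => (x, b x))) Y s.swap n = r := by
      apply sim_cover
      · intro y _ hy
        obtain ⟨x, hx, hyx⟩ := hC3 y hy
        rw [mem_uni]
        refine ⟨(x, b x), List.mem_map_of_mem hx, ?_, hyx⟩
        rintro rfl
        exact hTP _ hy (hXP _ (hQX (hC1 _ hx)))
      · intro v _ _ hv hv2
        rw [mem_uni] at hv
        obtain ⟨p, hp, hvp, hv⟩ := hv
        obtain ⟨x, hx, rfl⟩ := List.mem_map.1 hp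
        have hxX := hQX (hC1 x hx)
        have : v ∈ b x ∩ r.2 := Finset.mem_inter.2 ⟨hv, hv2⟩
        rw [hb x hxX, Finset.mem_singleton] at this
        exact hvp this
    refine ⟨Cs.map fun x => (x, b x), Y, ?_, by rw [List.length_map]; exact hC2, hY, hYl, ?_, ?_⟩
    · intro p hp
      obtain ⟨x, hx, rfl⟩ := List.mem_map.1 hp
      exact hbF x (hQX (hC1 x hx))
    · rw [e1]
      exact hW
    · rw [e1]
      exact hPr

/-- **The mixed decoder is complete.** -/
theorem complete2 (K₀ K₁ K₂ M : ℕ) (hK₀ : 2 ≤ K₀) (hK₁ : 2 ≤ K₁) (hK₂ : 2 ≤ K₂)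
    (F G : List (Finset (Fin n))) (hcross : ∀ A ∈ G, ∀ B ∈ F, (A ∩ B).Nonempty)
    (hM : M ≤ 2 ^ (K₀ + 1)) (hM' : F.length + G.length < M) (m u t e : ℕ)
    (hF : F.length < 2 ^ m) (hG : G.length < 2 ^ m) (hu : K₀ * m < 2 ^ u) (ht : K₂ * m < K₁ ^ t)
    (hFe : F.length < K₂ ^ e) (hGe : G.length < K₂ ^ e) (hw : ∃ P, Wit F G P) :
    ∃ As Bs : List (Fin n × Finset (Fin n)), (∀ p ∈ As, p.2 ∈ G) ∧ As.length ≤ K₁ * u ∧
      (∀ p ∈ Bs, p.2 ∈ F) ∧ Bs.length ≤ K₁ * u ∧
      (Wit F G (cexp K₀ M F G (msim K₀ F G (uni As) (uni Bs) n) n).1 ∨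
      ∃ i < n, ∃ b : Bool, ∃ Cs Y : List (Fin n × Finset (Fin n)), Cs.length ≤ t ∧ Y.length ≤ e ∧
        (((∀ p ∈ Cs, p.2 ∈ F) ∧ (∀ p ∈ Y, p.2 ∈ F) ∧
          Wit F G (sim K₂ G (uni Cs) Y
            (fstep K₀ F G b (msim K₀ F G (uni As) (uni Bs) i)).swap n).2) ∨
        ((∀ p ∈ Cs, p.2 ∈ G) ∧ (∀ p ∈ Y, p.2 ∈ G) ∧
          Wit F G (sim K₂ F (uni Cs) Y
            (fstep K₀ F G b (msim K₀ F G (uni As) (uni Bs) i)) n).1))) := by
  have hcross' : ∀ B ∈ F, ∀ A ∈ G, (B ∩ A).Nonempty := fun B hB A hA => by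
    rw [Finset.inter_comm]
    exact hcross A hA B hB
  obtain ⟨P₀, hP₀⟩ := hw
  obtain ⟨cp, X, Y, b, hcp0, hX0, hY0, hE, hcp, hcard, hcrit, hagree, hend1, hend2⟩ :=
    path K₀ hK₀ F G m hF hG ⟨P₀, hP₀, by simp, by simp⟩
  let good : ℕ → Prop := fun i =>
    Cov F G (cp i) (X i) (K₁ * u) ∧ Cov G F (cp i).swap (Y i) (K₁ * u)
  have hdec : ∀ i, good i → ∃ As Bs : List (Fin n × Finset (Fin n)), (∀ p ∈ As, p.2 ∈ G) ∧
      As.length ≤ K₁ * u ∧ (∀ p ∈ Bs, p.2 ∈ F) ∧ Bs.length ≤ K₁ * u ∧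
      msim K₀ F G (uni As) (uni Bs) i = cp i := by
    rintro i ⟨h1, h2⟩
    obtain ⟨As, a1, a2, a3, a4⟩ := h1.out
    obtain ⟨Bs, b1, b2, b3, b4⟩ := h2.out
    exact ⟨As, Bs, a1, a2, b1, b2, hagree i _ _ a3 a4 b3 b4⟩
  have h0 : good 0 := by
    constructor
    · refine ⟨P₀, hP₀, by rw [hcp0]; simp, by rw [hcp0]; simp, [], by simp, by simp, by rw [hX0]; simp⟩
    · refine ⟨P₀ᶜ, wit_compl hP₀, by rw [hcp0]; simp, by rw [hcp0]; simp, [], by simp, by simp,
        by rw [hY0]; simp⟩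
  by_cases hn : good n
  · obtain ⟨As, Bs, a1, a2, b1, b2, h⟩ := hdec n hn
    refine ⟨As, Bs, a1, a2, b1, b2, Or.inl ?_⟩
    rw [h]
    exact terminal K₀ M F G hcross (cp n) (hE n) hend1 hend2 hM hM'
  · obtain ⟨i, hi, hgi, hgi'⟩ : ∃ i < n, good i ∧ ¬ good (i + 1) := by
      by_contra hcon
      push Not at hcon
      apply hn
      have : ∀ i ≤ n, good i := by
        intro i
        induction i with
        | zero => exact fun _ => h0
        | succ i ih => exact fun hi => hcon i (by omega) (ih (by omega))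
      exact this n le_rfl
    obtain ⟨As, Bs, a1, a2, b1, b2, h⟩ := hdec i hgi
    refine ⟨As, Bs, a1, a2, b1, b2, Or.inr ⟨i, hi, b i, ?_⟩⟩
    rw [h, ← hcp i]
    have hXc : (X (i + 1)).card < 2 ^ u := lt_of_le_of_lt (hcard (i + 1)).1 hu
    have hYc : (Y (i + 1)).card < 2 ^ u := lt_of_le_of_lt (hcard (i + 1)).2 hu
    by_cases hc : Cov F G (cp (i + 1)) (X (i + 1)) (K₁ * u)
    · have hc2 : ¬ Cov G F (cp (i + 1)).swap (Y (i + 1)) (K₁ * u) := fun h => hgi' ⟨hc, h⟩
      obtain ⟨Cs, Z, c1, c2, z1, z2, hwit, heq⟩ := phase2 K₁ K₂ hK₁ hK₂ G F hcross' m e u t hF hFe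
        (cp (i + 1)).swap (hE (i + 1)).swap (Y (i + 1)) hYc (by
          intro P hP h1 h2 y hy
          have := (hcrit (i + 1) Pᶜ (wit_compl hP) (fun x hx => Finset.mem_compl.2
            (fun hxP => Finset.disjoint_left.1 h2 hx hxP)) (by
              rw [Finset.disjoint_left]
              intro x hx hxP
              exact Finset.mem_compl.1 hxP (h1 hx))).2 y hy
          rw [compl_compl] at this
          exact this) ht hc2
      refine ⟨Cs, Z, c2, z2, Or.inr ⟨c1, z1, ?_⟩⟩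
      rw [Prod.swap_swap] at hwit heq
      rw [heq]
      exact wit_compl hwit
    · obtain ⟨Cs, Z, c1, c2, z1, z2, hwit, -⟩ := phase2 K₁ K₂ hK₁ hK₂ F G hcross m e u t hG hGe
        (cp (i + 1)) (hE (i + 1)) (X (i + 1)) hXc
        (fun P hP h1 h2 x hx => (hcrit (i + 1) P hP h1 h2).1 x hx) ht hc
      exact ⟨Cs, Z, c2, z2, Or.inl ⟨c1, z1, hwit⟩⟩

end Pool.Agent.Helper66.SQ2
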