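import Mathlib
import Pool.Agent.Helper68.PT.Ext2
import Pool.Agent.Helper81.VCP.Defs
import Pool.Agent.Helper64.SQ.VDefs
import Pool.Agent.Helper66.SQ2.Core

/-!
# SQ2: the mixed decoder, for vectors

Vector version of the definitions of `Core.lean`. Sets are lists of Booleans of length `n` (`mem`), families
are lists of vectors, the recorded edges are pairs (number, vector).
-/

set_option autoImplicit false

namespace Pool.Agent.Helper66.SQ2

open Pool.Agent.Helper36 Pool.Agent.Helper81.VCP Pool.Agent.Helper64.SQ

/-! ### The decoder for sets -/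

/-- First kind of candidates: the mixed path to its end and the method of conditional expectations. -/
def decA {n : ℕ} (K M : ℕ) (F G : List (Finset (Fin n))) (As Bs : List (Fin n × Finset (Fin n))) :
    Finset (Fin n) := (cexp K M F G (msim K F G (uni As) (uni Bs) n) n).1

/-- The state after `i` mixed steps and one more step with the decision `b`. -/
def decS {n : ℕ} (K : ℕ) (F G : List (Finset (Fin n))) (As Bs : List (Fin n × Finset (Fin n)))
    (i : ℕ) (b : Bool) : Finset (Fin n) × Finset (Fin n) :=
  fstep K F G b (msim K F G (uni As) (uni Bs) i)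

/-- Second kind of candidates. -/
def decB {n : ℕ} (K K' : ℕ) (F G : List (Finset (Fin n))) (As Bs : List (Fin n × Finset (Fin n)))
    (i : ℕ) (b : Bool) (Cs Y : List (Fin n × Finset (Fin n))) : Finset (Fin n) :=
  (sim K' G (uni Cs) Y (decS K F G As Bs i b).swap n).2

/-- Third kind of candidates. -/
def decC {n : ℕ} (K K' : ℕ) (F G : List (Finset (Fin n))) (As Bs : List (Fin n × Finset (Fin n)))
    (i : ℕ) (b : Bool) (Cs Y : List (Fin n × Finset (Fin n))) : Finset (Fin n) :=
  (sim K' F (uni Cs) Y (decS K F G As Bs i b) n).1

/-! ### Vectors -/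

/-- The first undecided vertex which is frequent in the rest of `F` at `s.1`; `n` if there is none. -/
def fstV (K n : ℕ) (F : List (List Bool)) (s : List Bool × List Bool) : ℕ :=
  ((List.range n).find? fun v => !(mem s.1 v || mem s.2 v) && freqV K n F s.1 v).getD n

/-- The vertex `v` becomes one iff `b`. -/
def putV (n : ℕ) (s : List Bool × List Bool) (v : ℕ) (b : Bool) : List Bool × List Bool :=
  bif b then (insV n s.1 v, s.2) else (s.1, insV n s.2 v)

/-- The next vertex becomes one iff `b`. -/
def fstepV (K n : ℕ) (F G : List (List Bool)) (b : Bool) (s : List Bool × List Bool) :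
    List Bool × List Bool :=
  bif decide (fstV K n F s < n) then putV n s (fstV K n F s) b
  else bif decide (fstV K n G s.swap < n) then putV n s (fstV K n G s.swap) b
  else s

/-- One step of the mixed path. -/
def mstepV (K n : ℕ) (F G : List (List Bool)) (CA CB : List Bool) (s : List Bool × List Bool) :
    List Bool × List Bool :=
  bif decide (fstV K n F s < n) then putV n s (fstV K n F s) (mem CA (fstV K n F s))
  else bif decide (fstV K n G s.swap < n) then
    putV n s (fstV K n G s.swap) (!(mem CB (fstV K n G s.swap)))
  else s

/-- The first `i` steps of the mixed path. -/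
def msimV (K n : ℕ) (F G : List (List Bool)) (CA CB : List Bool) (i : ℕ) :
    List Bool × List Bool :=
  PT.recN (zeroV n, zeroV n) (fun _ s => mstepV K n F G CA CB s) i

/-- The union of the sets `p.2 - p.1`. -/
def uniV (n : ℕ) (X : List (ℕ × List Bool)) : List Bool :=
  (List.range n).map fun j => X.any fun p => !(decide (j = p.1)) && mem p.2 j

/-- `min (2 ^ x) M` for `M ≥ 1`. -/
def tpowV (M x : ℕ) : ℕ := PT.recN 1 (fun _ y => min (y + y) M) x

/-- The number of elements of `B - Z`. -/
def sdcV (n : ℕ) (B Z : List Bool) : ℕ :=
  ((List.range n).filter fun j => mem B j && !(mem Z j)).length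

/-- One half of the potential. -/
def hpotV (K M n : ℕ) (F : List (List Bool)) (O Z : List Bool) : ℕ :=
  (F.map fun B => bif disjV n B O then tpowV M (K + 1 - sdcV n B Z) else 0).sum

/-- The potential. -/
def potV (K M n : ℕ) (F G : List (List Bool)) (s : List Bool × List Bool) : ℕ :=
  hpotV K M n F s.1 s.2 + hpotV K M n G s.2 s.1

/-- One step of the method of conditional expectations. -/
def cstepV (K M n : ℕ) (F G : List (List Bool)) (s : List Bool × List Bool) (v : ℕ) :
    List Bool × List Bool :=
  bif mem s.1 v || mem s.2 v then s
  else bif decide (potV K M n F G (insV n s.1 v, s.2) ≤ potV K M n F G (s.1, insV n s.2 v)) then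
    (insV n s.1 v, s.2) else (s.1, insV n s.2 v)

/-- The vertices smaller than `i` are decided. -/
def cexpV (K M n : ℕ) (F G : List (List Bool)) (s : List Bool × List Bool) (i : ℕ) :
    List Bool × List Bool := PT.recN s (fun v t => cstepV K M n F G t v) i

/-- Vector version of `decA`. -/
def decAV (K M n : ℕ) (F G : List (List Bool)) (As Bs : List (ℕ × List Bool)) : List Bool :=
  (cexpV K M n F G (msimV K n F G (uniV n As) (uniV n Bs) n) n).1

/-- Vector version of `decS`. -/
def decSV (K n : ℕ) (F G : List (List Bool)) (As Bs : List (ℕ × List Bool)) (i : ℕ) (b : Bool) :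
    List Bool × List Bool := fstepV K n F G b (msimV K n F G (uniV n As) (uniV n Bs) i)

/-- Vector version of `decB`. -/
def decBV (K' n : ℕ) (G : List (List Bool)) (s : List Bool × List Bool)
    (Cs Y : List (ℕ × List Bool)) : List Bool := (simV K' n G (uniV n Cs) Y s.swap n).2

/-- Vector version of `decC`. -/
def decCV (K' n : ℕ) (F : List (List Bool)) (s : List Bool × List Bool)
    (Cs Y : List (ℕ × List Bool)) : List Bool := (simV K' n F (uniV n Cs) Y s n).1

/-! ### The parameters (`E` = the edges, `L` = the found minimal transversals) -/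

/-- The threshold of the mixed path. -/
noncomputable def k0S (E L : List (List Bool)) : ℕ := mS E L + 2

/-- The eighth root, rounded up, plus two. -/
noncomputable def k1S (E L : List (List Bool)) : ℕ :=
  PT.mu (mS E L + 1) (fun x => mS E L ≤ x * x * (x * x) * (x * x * (x * x))) + 2

/-- The number of sets in the first covers. -/
noncomputable def cS (E L : List (List Bool)) : ℕ := k1S E L * lgK 2 (k0S E L * mS E L)

/-- The number of sets in the second cover. -/
noncomputable def tS (K : ℕ) (E L : List (List Bool)) : ℕ := lgK (k1S E L) (K * mS E L)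

/-- The candidates. -/
def allS2 (K₀ K M n : ℕ) (E L : List (List Bool)) (UL UE TE YE TL YL : List (List (ℕ × List Bool))) :
    List (List Bool) :=
  (UL.flatMap fun As => UE.map fun Bs => decAV K₀ M n E L As Bs) ++
  ((List.range n).flatMap fun i => [false, true].flatMap fun b => UL.flatMap fun As =>
    UE.flatMap fun Bs =>
      (TE.flatMap fun Cs => YE.map fun Y => decBV K n L (decSV K₀ n E L As Bs i b) Cs Y) ++
      (TL.flatMap fun Cs => YL.map fun Y => decCV K n E (decSV K₀ n E L As Bs i b) Cs Y))

/-- The search for a new minimal transversal. -/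
noncomputable def nextS2 (P n : ℕ) (E L : List (List Bool)) (K : ℕ) : Option (List Bool) :=
  ((allS2 (k0S E L) K (E.length + L.length + 1) n E L (prs P n L (cS E L)) (prs P n E (cS E L))
    (prs P n E (tS K E L)) (prs P n E (eS K E L)) (prs P n L (tS K E L))
    (prs P n L (eS K E L))).find? (good n E L)).map (minim n E)

/-- The search is complete and no list is truncated. -/
noncomputable def feasS2 (P n : ℕ) (E L : List (List Bool)) (K : ℕ) : Bool :=
  ((decide (2 ≤ K) && decide ((prs P n L (cS E L)).length ≤ P)) &&
    (decide ((prs P n E (cS E L)).length ≤ P) && decide ((prs P n E (tS K E L)).length ≤ P))) &&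
  ((decide ((prs P n E (eS K E L)).length ≤ P) && decide ((prs P n L (tS K E L)).length ≤ P)) &&
    decide ((prs P n L (eS K E L)).length ≤ P))

end Pool.Agent.Helper66.SQ2
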