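import Mathlib
import Pool.Agent.Helper81.VCP.Defs
import Pool.Agent.Helper81.VCP.K3
import Pool.Agent.Helper81.VCP.K4
import Pool.Agent.Helper64.SQ.Core
import Pool.Agent.Helper64.SQ.VDefs
import Pool.Agent.Helper64.SQ.Dict
import Pool.Agent.Helper66.SQ2.Core
import Pool.Agent.Helper66.SQ2.VDefs

/-!
# SQ2-Dict: dictionary between the mixed decoder for sets and for vectors (helper22)

`vec2`, `prv`, `restcV_vec`, `cntcV_vec`, `simV_vec`, `zeroV_vec` of `Helper64/SQ/Dict.lean` (the private lemmas
`map_range_vec`, `disjV_vec`, `mem_vec_bool`, `freqV_vec`, `insV_vec` there are to be copied).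
`fst1`, `fst2` : `List.find?` on `List.finRange n`, `fstV` : on `List.range n`.
-/

set_option autoImplicit false

namespace Pool.Agent.Helper66.SQ2

open Pool.Agent.Helper36 Pool.Agent.Helper81.VCP Pool.Agent.Helper64.SQ

variable {n : ℕ}

/-! ### Copies of private lemmas of `Helper64/SQ/Dict.lean` -/

/-- A vector which is built entry by entry. -/
private theorem map_range_vec (f : ℕ → Bool) (T : Finset (Fin n))
    (h : ∀ j : Fin n, f j = true ↔ j ∈ T) : (List.range n).map f = vec T := by
  apply ext_mem_K3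
  · rw [List.length_map, List.length_range, length_vec]
  · intro j hj
    rw [List.length_map, List.length_range] at hj
    have h1 : mem ((List.range n).map f) j = f j := by
      rw [mem, List.getD_eq_getElem _ _ (by simpa using hj)]
      simp
    rw [h1]
    have h2 := h ⟨j, hj⟩
    have h3 := mem_vec_fin T ⟨j, hj⟩
    rw [h3]
    exact h2

private theorem disjV_vec (B P : Finset (Fin n)) :
    disjV n (vec B) (vec P) = decide (Disjoint B P) := by
  rw [Bool.eq_iff_iff, decide_eq_true_eq, disjV, List.all_eq_true, Finset.disjoint_left]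
  constructor
  · intro h j hj hP
    have h1 := h j (List.mem_range.2 j.2)
    rw [(mem_vec_fin B j).2 hj, (mem_vec_fin P j).2 hP] at h1
    exact absurd h1 (by decide)
  · intro h j hj
    rw [List.mem_range] at hj
    by_cases hB : mem (vec B) j = true
    · by_cases hP : mem (vec P) j = true
      · exact absurd ((mem_vec_fin P ⟨j, hj⟩).1 hP) (h ((mem_vec_fin B ⟨j, hj⟩).1 hB))
      · rw [Bool.not_eq_true] at hP
        rw [hP, Bool.and_false, Bool.not_false]
    · rw [Bool.not_eq_true] at hB
      rw [hB, Bool.false_and, Bool.not_false]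

private theorem mem_vec_bool (B : Finset (Fin n)) (v : Fin n) : mem (vec B) v = decide (v ∈ B) := by
  rw [Bool.eq_iff_iff, decide_eq_true_eq]
  exact mem_vec_fin B v

private theorem freqV_vec (K : ℕ) (F : List (Finset (Fin n))) (P : Finset (Fin n)) (v : Fin n) :
    freqV K n (F.map vec) (vec P) v = decide (Freq K F P v) := by
  rw [Bool.eq_iff_iff, decide_eq_true_eq]
  unfold freqV Freq
  rw [restcV_vec, cntcV_vec, decide_eq_true_eq]

private theorem insV_vec (P : Finset (Fin n)) (v : Fin n) :
    insV n (vec P) v = vec (insert v P) := by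
  unfold insV
  apply map_range_vec
  intro j
  rw [Bool.or_eq_true, decide_eq_true_eq, mem_vec_fin, Finset.mem_insert, Fin.ext_iff]

/-! ### The mixed path -/

theorem uniV_prv (X : List (Fin n × Finset (Fin n))) : uniV n (prv X) = vec (uni X) := by
  unfold uniV
  apply map_range_vec
  intro j
  unfold prv uni
  simp only [List.any_eq_true, List.mem_map, Bool.and_eq_true, Bool.not_eq_true',
    decide_eq_false_iff_not, Finset.mem_filter, Finset.mem_univ, true_and]
  constructor
  · rintro ⟨p, ⟨a, ha, rfl⟩, h1, h2⟩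
    exact ⟨a, ha, fun h => h1 (by rw [h]), (mem_vec_fin _ _).1 h2⟩
  · rintro ⟨a, ha, h1, h2⟩
    exact ⟨_, ⟨a, ha, rfl⟩, fun h => h1 (Fin.ext h), (mem_vec_fin _ _).2 h2⟩

private theorem find_vec (K : ℕ) (F : List (Finset (Fin n))) (O Z : Finset (Fin n)) :
    ((List.range n).find? fun v => !(mem (vec O) v || mem (vec Z) v) &&
      freqV K n (F.map vec) (vec O) v) =
    ((List.finRange n).find? fun v => decide (v ∉ O ∪ Z ∧ Freq K F O v)).map Fin.val := by
  rw [← List.map_coe_finRange_eq_range, List.find?_map]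
  congr 2
  funext v
  simp only [Function.comp_apply]
  rw [freqV_vec, mem_vec_bool, mem_vec_bool, Bool.eq_iff_iff]
  simp only [Bool.and_eq_true, Bool.not_eq_true', Bool.or_eq_false_iff, decide_eq_false_iff_not,
    decide_eq_true_eq, Finset.mem_union, not_or]

theorem fstV_vec1 (K : ℕ) (F : List (Finset (Fin n))) (s : Finset (Fin n) × Finset (Fin n)) :
    fstV K n (F.map vec) (vec2 s) = ((fst1 K F s).map Fin.val).getD n := by
  unfold fstV fst1 vec2
  rw [find_vec]

theorem fstV_vec2 (K : ℕ) (G : List (Finset (Fin n))) (s : Finset (Fin n) × Finset (Fin n)) :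
    fstV K n (G.map vec) (vec2 s).swap = ((fst2 K G s).map Fin.val).getD n := by
  unfold fstV fst2 vec2
  simp only [Prod.fst_swap, Prod.snd_swap]
  rw [find_vec, Finset.union_comm]

theorem putV_vec (s : Finset (Fin n) × Finset (Fin n)) (v : Fin n) (b : Bool) :
    putV n (vec2 s) v b = vec2 (put s v b) := by
  unfold putV put vec2
  cases b <;> simp [insV_vec]

theorem fstepV_vec (K : ℕ) (F G : List (Finset (Fin n))) (b : Bool)
    (s : Finset (Fin n) × Finset (Fin n)) :
    fstepV K n (F.map vec) (G.map vec) b (vec2 s) = vec2 (fstep K F G b s) := by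
  unfold fstepV fstep
  rw [fstV_vec1, fstV_vec2]
  cases h1 : fst1 K F s with
  | some v => simp [putV_vec]
  | none =>
    cases h2 : fst2 K G s with
    | some v => simp [putV_vec]
    | none => simp

theorem mstepV_vec (K : ℕ) (F G : List (Finset (Fin n))) (CA CB : Finset (Fin n))
    (s : Finset (Fin n) × Finset (Fin n)) :
    mstepV K n (F.map vec) (G.map vec) (vec CA) (vec CB) (vec2 s) =
      vec2 (mstep K F G CA CB s) := by
  unfold mstepV mstep
  rw [fstV_vec1, fstV_vec2]
  cases h1 : fst1 K F s with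
  | some v => simp [putV_vec, mem_vec_bool]
  | none =>
    cases h2 : fst2 K G s with
    | some v => simp [putV_vec, mem_vec_bool]
    | none => simp

theorem msimV_vec (K : ℕ) (F G : List (Finset (Fin n))) (CA CB : Finset (Fin n)) (i : ℕ) :
    msimV K n (F.map vec) (G.map vec) (vec CA) (vec CB) i = vec2 (msim K F G CA CB i) := by
  induction i with
  | zero =>
    have h : msimV K n (F.map vec) (G.map vec) (vec CA) (vec CB) 0 = (zeroV n, zeroV n) := rfl
    rw [h, zeroV_vec]
    rfl
  | succ i ih =>
    have h : msimV K n (F.map vec) (G.map vec) (vec CA) (vec CB) (i + 1) =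
        mstepV K n (F.map vec) (G.map vec) (vec CA) (vec CB)
          (msimV K n (F.map vec) (G.map vec) (vec CA) (vec CB) i) := rfl
    rw [h, ih, mstepV_vec]
    rfl

/-! ### Conditional expectations -/

theorem tpowV_eq (M x : ℕ) (hM : 1 ≤ M) : tpowV M x = tpow M x := by
  induction x with
  | zero =>
    have h : tpowV M 0 = 1 := rfl
    rw [h]
    unfold tpow
    rw [pow_zero]
    omega
  | succ x ih =>
    have h : tpowV M (x + 1) = min (tpowV M x + tpowV M x) M := rfl
    rw [h, ih]
    unfold tpow
    rw [pow_succ]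
    omega

theorem sdcV_vec (B Z : Finset (Fin n)) : sdcV n (vec B) (vec Z) = (B \ Z).card := by
  unfold sdcV
  rw [← List.map_coe_finRange_eq_range, List.filter_map, List.length_map]
  have h : (((List.finRange n).filter ((fun j => mem (vec B) j && !(mem (vec Z) j)) ∘
      Fin.val)).toFinset) = B \ Z := by
    ext j
    rw [List.mem_toFinset, List.mem_filter, Finset.mem_sdiff]
    simp only [List.mem_finRange, Function.comp_apply, true_and, mem_vec_bool, Bool.and_eq_true,
      decide_eq_true_eq, Bool.not_eq_true', decide_eq_false_iff_not]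
  rw [← h, List.toFinset_card_of_nodup]
  exact (List.nodup_finRange n).filter _

theorem hpotV_vec (K M : ℕ) (hM : 1 ≤ M) (F : List (Finset (Fin n))) (O Z : Finset (Fin n)) :
    hpotV K M n (F.map vec) (vec O) (vec Z) = hpot K M F O Z := by
  unfold hpotV hpot
  rw [List.map_map]
  congr 1
  apply List.map_congr_left
  intro B _
  simp only [Function.comp_apply]
  rw [disjV_vec, sdcV_vec, tpowV_eq _ _ hM]
  by_cases h : Disjoint B O
  · simp [h]
  · simp [h]

theorem potV_vec (K M : ℕ) (hM : 1 ≤ M) (F G : List (Finset (Fin n)))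
    (s : Finset (Fin n) × Finset (Fin n)) :
    potV K M n (F.map vec) (G.map vec) (vec2 s) = pot K M F G s := by
  unfold potV vec2
  rw [pot_eq, hpotV_vec K M hM, hpotV_vec K M hM]

theorem cstepV_vec (K M : ℕ) (hM : 1 ≤ M) (F G : List (Finset (Fin n)))
    (s : Finset (Fin n) × Finset (Fin n)) (v : Fin n) :
    cstepV K M n (F.map vec) (G.map vec) (vec2 s) v = vec2 (cstep K M F G s v) := by
  unfold cstepV cstep
  have e1 : (insV n (vec2 s).1 v, (vec2 s).2) = vec2 (insert v s.1, s.2) := by
    unfold vec2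
    rw [insV_vec]
  have e2 : ((vec2 s).1, insV n (vec2 s).2 v) = vec2 (s.1, insert v s.2) := by
    unfold vec2
    rw [insV_vec]
  rw [e1, e2, potV_vec K M hM, potV_vec K M hM]
  have e3 : mem (vec2 s).1 v = decide (v ∈ s.1) := mem_vec_bool _ _
  have e4 : mem (vec2 s).2 v = decide (v ∈ s.2) := mem_vec_bool _ _
  rw [e3, e4]
  by_cases h : v ∈ s.1 ∪ s.2
  · rw [if_pos h]
    rcases Finset.mem_union.1 h with h' | h'
    · simp [h']
    · simp [h']
  · rw [if_neg h]
    rw [Finset.mem_union, not_or] at h
    by_cases h3 : pot K M F G (insert v s.1, s.2) ≤ pot K M F G (s.1, insert v s.2)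
    · simp [h.1, h.2, h3]
    · simp [h.1, h.2, h3]

theorem cexpV_vec (K M : ℕ) (hM : 1 ≤ M) (F G : List (Finset (Fin n)))
    (s : Finset (Fin n) × Finset (Fin n)) (i : ℕ) (hi : i ≤ n) :
    cexpV K M n (F.map vec) (G.map vec) (vec2 s) i = vec2 (cexp K M F G s i) := by
  induction i with
  | zero => rfl
  | succ i ih =>
    have h : i < n := hi
    have h1 : cexpV K M n (F.map vec) (G.map vec) (vec2 s) (i + 1) =
        cstepV K M n (F.map vec) (G.map vec)
          (cexpV K M n (F.map vec) (G.map vec) (vec2 s) i) i := rfl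
    rw [h1, ih (le_of_lt h), cexp, dif_pos h]
    exact cstepV_vec K M hM F G (cexp K M F G s i) ⟨i, h⟩

/-! ### The dictionary -/

theorem decAV_vec (K M : ℕ) (hM : 1 ≤ M) (F G : List (Finset (Fin n)))
    (As Bs : List (Fin n × Finset (Fin n))) :
    decAV K M n (F.map vec) (G.map vec) (prv As) (prv Bs) = vec (decA K M F G As Bs) := by
  unfold decAV decA
  rw [uniV_prv, uniV_prv, msimV_vec, cexpV_vec K M hM F G _ n le_rfl]
  rfl

theorem decSV_vec (K : ℕ) (F G : List (Finset (Fin n))) (As Bs : List (Fin n × Finset (Fin n)))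
    (i : ℕ) (b : Bool) :
    decSV K n (F.map vec) (G.map vec) (prv As) (prv Bs) i b = vec2 (decS K F G As Bs i b) := by
  unfold decSV decS
  rw [uniV_prv, uniV_prv, msimV_vec, fstepV_vec]

theorem decBV_vec (K' : ℕ) (G : List (Finset (Fin n))) (s : Finset (Fin n) × Finset (Fin n))
    (Cs Y : List (Fin n × Finset (Fin n))) :
    decBV K' n (G.map vec) (vec2 s) (prv Cs) (prv Y) = vec (sim K' G (uni Cs) Y s.swap n).2 := by
  unfold decBV
  have h : (vec2 s).swap = vec2 s.swap := rfl
  rw [uniV_prv, h, simV_vec K' G (uni Cs) Y s.swap n le_rfl]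
  rfl

theorem decCV_vec (K' : ℕ) (F : List (Finset (Fin n))) (s : Finset (Fin n) × Finset (Fin n))
    (Cs Y : List (Fin n × Finset (Fin n))) :
    decCV K' n (F.map vec) (vec2 s) (prv Cs) (prv Y) = vec (sim K' F (uni Cs) Y s n).1 := by
  unfold decCV
  rw [uniV_prv, simV_vec K' F (uni Cs) Y s n le_rfl]
  rfl

end Pool.Agent.Helper66.SQ2
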