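import Mathlib
import Pool.Agent.Helper81.VCP.Defs
import Pool.Agent.Helper81.VCP.K3
import Pool.Agent.Helper81.VCP.K4
import Pool.Agent.Helper81.VCP.K7
import Pool.Agent.Helper64.SQ.Search
import Pool.Agent.Helper66.SQ2.Complete
import Pool.Agent.Helper66.SQ2.VDefs
import Pool.Agent.Helper66.SQ2.Dict
import Pool.Agent.Helper50.SQ2.Arith

/-!
# SQ2-Search: correctness and feasibility of the search
-/

set_option autoImplicit false

namespace Pool.Agent.Helper66.SQ2

open Pool.Agent.Helper36 Pool.Agent.Helper81.VCP Pool.Agent.Helper64.SQ Pool.Agent.Helper50.SQ2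

variable {n : ℕ}

/-! ### Lengths -/

private theorem length_simV (K : ℕ) (F : List (List Bool)) (C : List Bool)
    (X : List (ℕ × List Bool)) (s : List Bool × List Bool) (i : ℕ)
    (h : s.1.length = n ∧ s.2.length = n) :
    (simV K n F C X s i).1.length = n ∧ (simV K n F C X s i).2.length = n := by
  induction i with
  | zero => exact h
  | succ i ih =>
    change (stepV K n F C X (simV K n F C X s i) i).1.length = n ∧
      (stepV K n F C X (simV K n F C X s i) i).2.length = n
    unfold stepV
    generalize simV K n F C X s i = s' at ih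
    cases mem s'.1 i || mem s'.2 i <;> cases freqV K n F s'.1 i <;> cases mem C i <;>
      cases excV X i <;> simp [insV, exuV, ih]

private theorem length_putV (s : List Bool × List Bool) (v : ℕ) (b : Bool)
    (h : s.1.length = n ∧ s.2.length = n) :
    (putV n s v b).1.length = n ∧ (putV n s v b).2.length = n := by
  unfold putV
  cases b <;> simp [insV, h]

private theorem length_fstepV (K : ℕ) (F G : List (List Bool)) (b : Bool)
    (s : List Bool × List Bool) (h : s.1.length = n ∧ s.2.length = n) :
    (fstepV K n F G b s).1.length = n ∧ (fstepV K n F G b s).2.length = n := by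
  unfold fstepV
  cases decide (fstV K n F s < n) <;> cases decide (fstV K n G s.swap < n) <;>
    simp only [cond_true, cond_false]
  · exact h
  · exact length_putV _ _ _ h
  · exact length_putV _ _ _ h
  · exact length_putV _ _ _ h

private theorem length_msimV (K : ℕ) (F G : List (List Bool)) (CA CB : List Bool) (i : ℕ) :
    (msimV K n F G CA CB i).1.length = n ∧ (msimV K n F G CA CB i).2.length = n := by
  induction i with
  | zero => exact ⟨by simp [msimV, PT.recN, zeroV], by simp [msimV, PT.recN, zeroV]⟩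
  | succ i ih =>
    change (mstepV K n F G CA CB (msimV K n F G CA CB i)).1.length = n ∧
      (mstepV K n F G CA CB (msimV K n F G CA CB i)).2.length = n
    unfold mstepV
    generalize msimV K n F G CA CB i = s at ih
    cases decide (fstV K n F s < n) <;> cases decide (fstV K n G s.swap < n) <;>
      simp only [cond_true, cond_false]
    · exact ih
    · exact length_putV _ _ _ ih
    · exact length_putV _ _ _ ih
    · exact length_putV _ _ _ ih

private theorem length_cexpV (K M : ℕ) (F G : List (List Bool)) (s : List Bool × List Bool)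
    (i : ℕ) (h : s.1.length = n ∧ s.2.length = n) :
    (cexpV K M n F G s i).1.length = n ∧ (cexpV K M n F G s i).2.length = n := by
  induction i with
  | zero => exact h
  | succ i ih =>
    change (cstepV K M n F G (cexpV K M n F G s i) i).1.length = n ∧
      (cstepV K M n F G (cexpV K M n F G s i) i).2.length = n
    generalize cexpV K M n F G s i = s' at ih
    unfold cstepV
    cases mem s'.1 i || mem s'.2 i <;>
      cases decide (potV K M n F G (insV n s'.1 i, s'.2) ≤ potV K M n F G (s'.1, insV n s'.2 i)) <;>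
      simp [insV, ih]

private theorem length_of_mem_allS2 (K₀ K M : ℕ) (E L : List (List Bool))
    (UL UE TE YE TL YL : List (List (ℕ × List Bool))) (Z : List Bool)
    (h : Z ∈ allS2 K₀ K M n E L UL UE TE YE TL YL) : Z.length = n := by
  have hs : ∀ As Bs i b, (decSV K₀ n E L As Bs i b).1.length = n ∧
      (decSV K₀ n E L As Bs i b).2.length = n := by
    intro As Bs i b
    exact length_fstepV K₀ E L b _ (length_msimV K₀ E L _ _ i)
  unfold allS2 at h
  rw [List.mem_append] at h
  rcases h with h | h
  · rw [List.mem_flatMap] at h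
    obtain ⟨As, _, h⟩ := h
    rw [List.mem_map] at h
    obtain ⟨Bs, _, rfl⟩ := h
    exact (length_cexpV K₀ M E L _ n (length_msimV K₀ E L _ _ n)).1
  · rw [List.mem_flatMap] at h
    obtain ⟨i, _, h⟩ := h
    rw [List.mem_flatMap] at h
    obtain ⟨b, _, h⟩ := h
    rw [List.mem_flatMap] at h
    obtain ⟨As, _, h⟩ := h
    rw [List.mem_flatMap] at h
    obtain ⟨Bs, _, h⟩ := h
    rw [List.mem_append] at h
    rcases h with h | h
    · rw [List.mem_flatMap] at h
      obtain ⟨Cs, _, h⟩ := h
      rw [List.mem_map] at h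
      obtain ⟨Y, _, rfl⟩ := h
      refine (length_simV K L _ _ _ n ?_).2
      exact ⟨(hs As Bs i b).2, (hs As Bs i b).1⟩
    · rw [List.mem_flatMap] at h
      obtain ⟨Cs, _, h⟩ := h
      rw [List.mem_map] at h
      obtain ⟨Y, _, rfl⟩ := h
      exact (length_simV K E _ _ _ n (hs As Bs i b)).1

/-! ### Correctness -/

theorem nextS2_some (P : ℕ) (E L : List (Finset (Fin n))) (K : ℕ) (v : List Bool)
    (h : nextS2 P n (E.map vec) (L.map vec) K = some v) :
    ∃ T : Finset (Fin n), v = vec T ∧ MinTr E T ∧ ∀ B ∈ L, ¬ B ⊆ T := by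
  unfold nextS2 at h
  obtain ⟨Z, hfind, hv⟩ := Option.map_eq_some_iff.1 h
  have hgood := List.find?_some hfind
  obtain ⟨Z', rfl⟩ := vec_surj Z
    (length_of_mem_allS2 _ K _ _ _ _ _ _ _ _ _ Z (List.mem_of_find?_eq_some hfind))
  unfold good at hgood
  rw [Bool.and_eq_true] at hgood
  obtain ⟨T, h1, h2, h3⟩ := minim_spec E Z' ((hits_vec E Z').1 hgood.1)
  refine ⟨T, by rw [← hv, h1], h2, fun B hB hBT => ?_⟩
  exact (avoids_vec L Z').1 hgood.2 B hB (hBT.trans h3)

private theorem prv_mem_prs (P q : ℕ) (E : List (Finset (Fin n)))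
    (X : List (Fin n × Finset (Fin n))) (hS : ∀ p ∈ X, p.2 ∈ E) (hc : X.length ≤ q)
    (h : (prs P n (E.map vec) q).length ≤ P) : prv X ∈ prs P n (E.map vec) q := by
  rw [mem_prs P n (E.map vec) q h]
  unfold prv
  refine ⟨by rw [List.length_map]; exact hc, ?_⟩
  intro p hp
  rw [List.mem_map] at hp
  obtain ⟨a, ha, rfl⟩ := hp
  exact ⟨a.1.2, List.mem_map.2 ⟨a.2, hS a ha, rfl⟩⟩

theorem nextS2_none (P : ℕ) (E L : List (Finset (Fin n))) (K : ℕ) (hL : ∀ B ∈ L, MinTr E B)
    (hf : feasS2 P n (E.map vec) (L.map vec) K = true)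
    (h : nextS2 P n (E.map vec) (L.map vec) K = none) :
    ∀ T : Finset (Fin n), MinTr E T → T ∈ L := by
  unfold feasS2 at hf
  simp only [Bool.and_eq_true, decide_eq_true_eq] at hf
  obtain ⟨⟨⟨hK, hf1⟩, ⟨hf2, hf3⟩⟩, ⟨hf4, hf5⟩, hf6⟩ := hf
  unfold nextS2 at h
  rw [Option.map_eq_none_iff, List.find?_eq_none] at h
  have hgood : ∀ Z : Finset (Fin n), Wit E L Z → good n (E.map vec) (L.map vec) (vec Z) = true := by
    intro Z hW
    unfold good
    rw [Bool.and_eq_true, hits_vec, avoids_vec]
    exact ⟨fun A hA => hW.1 A hA, fun B hB => hW.2 B hB⟩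
  intro T hT
  by_contra hTL
  have hWT : Wit E L T := by
    constructor
    · intro A hA
      rw [Finset.inter_comm]
      exact hT.prop A hA
    · intro B hB hBT
      have h1 : T ⊆ B := hT.le_of_le (hL B hB).prop hBT
      rw [Finset.Subset.antisymm h1 hBT] at hTL
      exact hTL hB
  have hm := lgK_spec 2 ((E.map vec).length + (L.map vec).length) le_rfl
  have hu := lgK_spec 2 (k0S (E.map vec) (L.map vec) * mS (E.map vec) (L.map vec)) le_rfl
  have hk1 : 2 ≤ k1S (E.map vec) (L.map vec) := Nat.le_add_left _ _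
  have ht := lgK_spec (k1S (E.map vec) (L.map vec)) (K * mS (E.map vec) (L.map vec)) hk1
  have he := lgK_spec K ((E.map vec).length + (L.map vec).length) hK
  rw [List.length_map, List.length_map] at hm he
  have hmS : mS (E.map vec) (L.map vec) = lgK 2 (E.length + L.length) := by
    unfold mS
    rw [List.length_map, List.length_map]
  rw [← hmS] at hm
  have hM : E.length + L.length + 1 ≤ 2 ^ (k0S (E.map vec) (L.map vec) + 1) := by
    refine le_trans hm (Nat.pow_le_pow_right (by norm_num) ?_)
    unfold k0S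
    omega
  obtain ⟨As, Bs, hA, hAl, hB, hBl, hcase⟩ := complete2 (k0S (E.map vec) (L.map vec))
    (k1S (E.map vec) (L.map vec)) K (E.length + L.length + 1) (Nat.le_add_left _ _) hk1 hK E L
    (fun A hA B hB => (hL A hA).prop B hB) hM (Nat.lt_succ_self _) (mS (E.map vec) (L.map vec))
    (lgK 2 (k0S (E.map vec) (L.map vec) * mS (E.map vec) (L.map vec)))
    (tS K (E.map vec) (L.map vec)) (eS K (E.map vec) (L.map vec)) (by omega) (by omega) hu ht
    (by unfold eS; rw [List.length_map, List.length_map]; omega)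
    (by unfold eS; rw [List.length_map, List.length_map]; omega) ⟨T, hWT⟩
  have mA := prv_mem_prs P _ L As hA hAl hf1
  have mB := prv_mem_prs P _ E Bs hB hBl hf2
  rcases hcase with hW | ⟨i, hi, b, Cs, Y, hCl, hYl, hcase⟩
  · apply h (vec (decA (k0S (E.map vec) (L.map vec)) (E.length + L.length + 1) E L As Bs)) _
      (hgood _ hW)
    rw [← decAV_vec _ _ (Nat.le_add_left _ _)]
    unfold allS2
    rw [List.mem_append]
    left
    rw [List.mem_flatMap]
    refine ⟨prv As, mA, ?_⟩
    rw [List.mem_map]
    exact ⟨prv Bs, mB, by rw [List.length_map, List.length_map]⟩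
  · rcases hcase with ⟨hC, hY, hW⟩ | ⟨hC, hY, hW⟩
    · have mC := prv_mem_prs P _ E Cs hC hCl hf3
      have mY := prv_mem_prs P _ E Y hY hYl hf4
      apply h (vec (decB (k0S (E.map vec) (L.map vec)) K E L As Bs i b Cs Y)) _ (hgood _ hW)
      unfold decB
      rw [← decBV_vec, ← decSV_vec]
      unfold allS2
      rw [List.mem_append]
      right
      rw [List.mem_flatMap]
      refine ⟨i, List.mem_range.2 hi, ?_⟩
      rw [List.mem_flatMap]
      refine ⟨b, by cases b <;> simp, ?_⟩
      rw [List.mem_flatMap]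
      refine ⟨prv As, mA, ?_⟩
      rw [List.mem_flatMap]
      refine ⟨prv Bs, mB, ?_⟩
      rw [List.mem_append]
      left
      rw [List.mem_flatMap]
      refine ⟨prv Cs, mC, ?_⟩
      rw [List.mem_map]
      exact ⟨prv Y, mY, rfl⟩
    · have mC := prv_mem_prs P _ L Cs hC hCl hf5
      have mY := prv_mem_prs P _ L Y hY hYl hf6
      apply h (vec (decC (k0S (E.map vec) (L.map vec)) K E L As Bs i b Cs Y)) _ (hgood _ hW)
      unfold decC
      rw [← decCV_vec, ← decSV_vec]
      unfold allS2
      rw [List.mem_append]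
      right
      rw [List.mem_flatMap]
      refine ⟨i, List.mem_range.2 hi, ?_⟩
      rw [List.mem_flatMap]
      refine ⟨b, by cases b <;> simp, ?_⟩
      rw [List.mem_flatMap]
      refine ⟨prv As, mA, ?_⟩
      rw [List.mem_flatMap]
      refine ⟨prv Bs, mB, ?_⟩
      rw [List.mem_append]
      right
      rw [List.mem_flatMap]
      refine ⟨prv Cs, mC, ?_⟩
      rw [List.mem_map]
      exact ⟨prv Y, mY, rfl⟩

/-! ### Feasibility -/

open Classical in
private theorem mu_spec (m : ℕ) (Q : ℕ → Prop) (hex : ∃ i, i < m ∧ Q i) :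
    PT.mu m Q < m ∧ Q (PT.mu m Q) ∧ ∀ i, i < PT.mu m Q → ¬ Q i := by
  unfold PT.mu
  rw [dif_pos hex]
  refine ⟨(Nat.find_spec hex).1, (Nat.find_spec hex).2, fun i h1 h2 => ?_⟩
  exact Nat.find_min hex h1 ⟨lt_trans h1 (Nat.find_spec hex).1, h2⟩

/-- The least `k` with `m ≤ k ^ 8`. -/
private theorem root_spec (m : ℕ) : ∃ k, PT.mu (m + 1) (fun x => m ≤ x * x * (x * x) * (x * x * (x * x))) = k ∧
    m ≤ k ^ 8 ∧ ∀ j < k, j ^ 8 < m := by
  have hx : ∀ x : ℕ, x * x * (x * x) * (x * x * (x * x)) = x ^ 8 := fun x => by ring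
  simp only [hx]
  have hex : ∃ i, i < m + 1 ∧ m ≤ i ^ 8 := ⟨m, Nat.lt_succ_self m, Nat.le_self_pow (by norm_num) m⟩
  obtain ⟨-, h2, h3⟩ := mu_spec (m + 1) (fun x => m ≤ x ^ 8) hex
  exact ⟨_, rfl, h2, fun j hj => not_le.1 (h3 j hj)⟩

/-- With `b ≥ n (|E| + |L|) + n + 2` and a budget of `b ^ (1710 (sqrt (l / (log l + 1)) + 1))`, `l = log b`, the
search is feasible for some `K`. -/
theorem feasS2_of_card (P b : ℕ) (E L : List (Finset (Fin n)))
    (hb : n * (E.length + L.length) + n + 2 ≤ b)
    (hP : b ^ (1710 * yy (Nat.log 2 b)) ≤ P) :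
    ∃ K < P, feasS2 P n (E.map vec) (L.map vec) K = true := by
  set l := Nat.log 2 b with hl
  have hy := yy_pos l
  have hb2 : 2 ≤ b := by omega
  have hpow : ∀ q, q ≤ 1710 * yy l → ∀ H : List (Finset (Fin n)), n * H.length + 1 ≤ b →
      (prs P n (H.map vec) q).length ≤ P := by
    intro q hq H hH
    refine (length_prs_le P n (H.map vec) q).trans ?_
    rw [List.length_map]
    exact (Nat.pow_le_pow_left hH q).trans ((Nat.pow_le_pow_right (by omega) hq).trans hP)
  have hE : n * E.length + 1 ≤ b := by
    have : n * E.length ≤ n * (E.length + L.length) := Nat.mul_le_mul_left _ (by omega)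
    omega
  have hLb : n * L.length + 1 ≤ b := by
    have : n * L.length ≤ n * (E.length + L.length) := Nat.mul_le_mul_left _ (by omega)
    omega
  have hP1 : 2 < P := by
    refine lt_of_lt_of_le ?_ hP
    calc 2 < 2 ^ 2 := by norm_num
      _ ≤ b ^ 2 := Nat.pow_le_pow_left hb2 _
      _ ≤ b ^ (1710 * yy l) := Nat.pow_le_pow_right (by omega) (by omega)
  rcases Nat.eq_zero_or_pos n with hn | hn
  · subst hn
    have h1 : ∀ (q : ℕ) (H : List (Finset (Fin 0))), (prs P 0 (H.map vec) q).length ≤ P := by
      intro q H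
      refine (length_prs_le P 0 (H.map vec) q).trans ?_
      rw [Nat.zero_mul, Nat.zero_add, one_pow]
      omega
    refine ⟨2, hP1, ?_⟩
    unfold feasS2
    simp only [Bool.and_eq_true, decide_eq_true_eq]
    exact ⟨⟨⟨le_rfl, h1 _ L⟩, h1 _ E, h1 _ E⟩, ⟨h1 _ E, h1 _ L⟩, h1 _ L⟩
  · have hEL : E.length + L.length < b := by
      have : E.length + L.length ≤ n * (E.length + L.length) := Nat.le_mul_of_pos_left _ hn
      omega
    have hlog : b < 2 ^ (l + 1) := Nat.lt_pow_succ_log_self (by norm_num) b
    set m := mS (E.map vec) (L.map vec) with hm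
    have hml : m ≤ l + 1 := by
      rw [hm]
      unfold mS
      apply lgK_le 2 _ _ le_rfl
      rw [List.length_map, List.length_map]
      omega
    have hspec : (E.map vec).length + (L.map vec).length < 2 ^ m := lgK_spec 2 _ le_rfl
    obtain ⟨k, hk, hk8, hk'⟩ := root_spec m
    have hk1 : k1S (E.map vec) (L.map vec) = k + 2 := by
      unfold k1S
      rw [← hm, hk]
    have hmain : ∃ K < P, 2 ≤ K ∧ cS (E.map vec) (L.map vec) ≤ 1710 * yy l ∧
        tS K (E.map vec) (L.map vec) ≤ 1710 * yy l ∧
        eS K (E.map vec) (L.map vec) ≤ 1710 * yy l := by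
      rcases Nat.eq_zero_or_pos m with h0 | h0
      · refine ⟨2, hP1, le_rfl, ?_, ?_, ?_⟩
        · have : lgK 2 (k0S (E.map vec) (L.map vec) * m) ≤ 0 := by
            apply lgK_le 2 _ _ le_rfl
            rw [h0]
            simp
          unfold cS
          rw [← hm]
          have h2 : lgK 2 (k0S (E.map vec) (L.map vec) * m) = 0 := by omega
          rw [h2]
          simp
        · unfold tS
          refine (lgK_le _ _ 0 (by rw [hk1]; omega) ?_).trans (Nat.zero_le _)
          rw [← hm, h0]
          simp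
        · unfold eS
          refine (lgK_le _ _ 0 le_rfl ?_).trans (Nat.zero_le _)
          rw [h0] at hspec
          exact hspec
      · refine ⟨KK l m, ?_, two_le_KK l m, ?_, ?_, ?_⟩
        · refine lt_of_lt_of_le ?_ hP
          have h1 : 2 ^ (l + 1) ≤ b ^ 2 := by
            have h2 : 2 ^ l ≤ b := Nat.pow_log_le_self 2 (by omega)
            rw [pow_succ, pow_two]
            exact Nat.mul_le_mul h2 hb2
          calc KK l m ≤ 2 ^ (4 * (l + 1) * yy l) := KK_le l m hml
            _ = (2 ^ (l + 1)) ^ (4 * yy l) := by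
                rw [← pow_mul]
                congr 1
                ring
            _ ≤ (b ^ 2) ^ (4 * yy l) := Nat.pow_le_pow_left h1 _
            _ = b ^ (8 * yy l) := by
                rw [← pow_mul]
                congr 1
                ring
            _ < b ^ (1710 * yy l) := Nat.pow_lt_pow_right (by omega) (by omega)
        · unfold cS
          rw [← hm, hk1]
          refine le_trans (Nat.mul_le_mul_left _ ?_) (Ku_le l m k h0 hml hk8 hk')
          apply lgK_le 2 _ _ le_rfl
          unfold k0S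
          rw [← hm]
          exact u_lt m
        · unfold tS
          rw [← hm, hk1]
          refine (lgK_le _ _ (27 * yy l) (by omega) (KK_mul_lt l m k h0 hk8)).trans ?_
          exact Nat.mul_le_mul_right _ (by norm_num)
        · unfold eS
          refine (lgK_le _ _ (2 * yy l) (two_le_KK l m) ?_).trans ?_
          · exact lt_of_lt_of_le hspec (pow_m_le l m h0 hml)
          · exact Nat.mul_le_mul_right _ (by norm_num)
    obtain ⟨K, hKP, hK2, hc, ht, he⟩ := hmain
    refine ⟨K, hKP, ?_⟩
    unfold feasS2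
    simp only [Bool.and_eq_true, decide_eq_true_eq]
    exact ⟨⟨⟨hK2, hpow _ hc L hLb⟩, hpow _ hc E hE, hpow _ ht E hE⟩,
      ⟨hpow _ he E hE, hpow _ ht L hLb⟩, hpow _ he L hLb⟩

end Pool.Agent.Helper66.SQ2
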