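import Mathlib
import Pool.Agent.Helper68.PT.Ext2
import Pool.Agent.Helper81.VCP.PT1a
import Pool.Agent.Helper81.VCP.PT1b
import Pool.Agent.Helper81.VCP.PT2a
import Pool.Agent.Helper81.VCP.PT2b
import Pool.Agent.Helper81.VCP.PT3
import Pool.Agent.Helper64.SQ.VDefs
import Pool.Agent.Helper64.SQ.VPT
import Pool.Agent.Helper66.SQ2.VDefs

/-!
# SQ2-VPT: polynomial time of the search
-/

set_option autoImplicit false

namespace Pool.Agent.Helper66.SQ2

open Pool.Agent.Helper36 Pool.Agent.Helper36.PT Pool.Agent.Helper81.VCP Pool.Agent.Helper64.SQ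

variable {α : Type} [Enc α]

@[fun_prop]
theorem fstV_pt {K n : α → ℕ} {F : α → List (List Bool)} {s : α → List Bool × List Bool}
    (hK : PolyTime K) (hn : PolyTime n) (hF : PolyTime F) (hs : PolyTime s) :
    PolyTime (fun a => fstV (K a) (n a) (F a) (s a)) := by
  have h1 : PolyTime (fun a => (List.range (n a)).find? fun v =>
      !(mem (s a).1 v || mem (s a).2 v) && freqV (K a) (n a) (F a) (s a).1 v) := by fun_prop
  refine (PolyTime.optCases (f := n) (g := fun _ v => v) h1 hn (by fun_prop)).congr fun a => ?_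
  unfold fstV
  cases (List.range (n a)).find? fun v =>
      !(mem (s a).1 v || mem (s a).2 v) && freqV (K a) (n a) (F a) (s a).1 v with
  | none => rfl
  | some v => rfl

@[fun_prop]
theorem putV_pt {n v : α → ℕ} {s : α → List Bool × List Bool} {b : α → Bool}
    (hn : PolyTime n) (hs : PolyTime s) (hv : PolyTime v) (hb : PolyTime b) :
    PolyTime (fun a => putV (n a) (s a) (v a) (b a)) := by
  unfold putV
  fun_prop

@[fun_prop]
theorem fstepV_pt {K n : α → ℕ} {F G : α → List (List Bool)} {b : α → Bool}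
    {s : α → List Bool × List Bool} (hK : PolyTime K) (hn : PolyTime n) (hF : PolyTime F)
    (hG : PolyTime G) (hb : PolyTime b) (hs : PolyTime s) :
    PolyTime (fun a => fstepV (K a) (n a) (F a) (G a) (b a) (s a)) := by
  unfold fstepV
  fun_prop

@[fun_prop]
theorem mstepV_pt {K n : α → ℕ} {F G : α → List (List Bool)} {CA CB : α → List Bool}
    {s : α → List Bool × List Bool} (hK : PolyTime K) (hn : PolyTime n) (hF : PolyTime F)
    (hG : PolyTime G) (hA : PolyTime CA) (hB : PolyTime CB) (hs : PolyTime s) :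
    PolyTime (fun a => mstepV (K a) (n a) (F a) (G a) (CA a) (CB a) (s a)) := by
  unfold mstepV
  fun_prop

theorem esz_zeroV (n : ℕ) : esz (zeroV n) ≤ 3 * n := by
  have h := esz_boolList (zeroV n)
  have h1 : (zeroV n).length = n := by simp [zeroV]
  rw [h1] at h
  omega

theorem esz_putV (n : ℕ) (s : List Bool × List Bool) (v : ℕ) (b : Bool)
    (h1 : esz s.1 ≤ 3 * n) (h2 : esz s.2 ≤ 3 * n) :
    esz (putV n s v b).1 ≤ 3 * n ∧ esz (putV n s v b).2 ≤ 3 * n := by
  unfold putV
  cases b <;> simp only [cond_true, cond_false]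
  · exact ⟨h1, esz_insV n s.2 v⟩
  · exact ⟨esz_insV n s.1 v, h2⟩

theorem esz_mstepV (K n : ℕ) (F G : List (List Bool)) (CA CB : List Bool)
    (s : List Bool × List Bool) (h1 : esz s.1 ≤ 3 * n) (h2 : esz s.2 ≤ 3 * n) :
    esz (mstepV K n F G CA CB s).1 ≤ 3 * n ∧ esz (mstepV K n F G CA CB s).2 ≤ 3 * n := by
  unfold mstepV
  cases decide (fstV K n F s < n) <;> simp only [cond_true, cond_false]
  · cases decide (fstV K n G s.swap < n) <;> simp only [cond_true, cond_false]
    · exact ⟨h1, h2⟩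
    · exact esz_putV n s _ _ h1 h2
  · exact esz_putV n s _ _ h1 h2

theorem esz_msimV (K n : ℕ) (F G : List (List Bool)) (CA CB : List Bool) (i : ℕ) :
    esz (msimV K n F G CA CB i).1 ≤ 3 * n ∧ esz (msimV K n F G CA CB i).2 ≤ 3 * n := by
  induction i with
  | zero => exact ⟨esz_zeroV n, esz_zeroV n⟩
  | succ i ih => exact esz_mstepV K n F G CA CB (msimV K n F G CA CB i) ih.1 ih.2

@[fun_prop]
theorem msimV_pt {K n i : α → ℕ} {F G : α → List (List Bool)} {CA CB : α → List Bool}
    (hK : PolyTime K) (hn : PolyTime n) (hF : PolyTime F) (hG : PolyTime G) (hA : PolyTime CA)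
    (hB : PolyTime CB) (hi : PolyTime i) :
    PolyTime (fun a => msimV (K a) (n a) (F a) (G a) (CA a) (CB a) (i a)) := by
  have hh : PolyTime (fun p : (α × ℕ) × (List Bool × List Bool) =>
      mstepV (K p.1.1) (n p.1.1) (F p.1.1) (G p.1.1) (CA p.1.1) (CB p.1.1) p.2) := by fun_prop
  have hz : PolyTime (fun a => (zeroV (n a), zeroV (n a))) := by fun_prop
  exact PolyTime.recN (n := i) (g := fun a => (zeroV (n a), zeroV (n a)))
    (h := fun a _ s => mstepV (K a) (n a) (F a) (G a) (CA a) (CB a) s) hi hz hh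
    ⟨fun a => 1 + 9 * n a, (Bdd.const 1).add ((Bdd.const 9).mul (bdd_nat hn)), by
        intro a j _
        obtain ⟨h1, h2⟩ := esz_msimV (K a) (n a) (F a) (G a) (CA a) (CB a) j
        have h3 := esz_pair (msimV (K a) (n a) (F a) (G a) (CA a) (CB a) j).1
          (msimV (K a) (n a) (F a) (G a) (CA a) (CB a) j).2
        change esz (msimV (K a) (n a) (F a) (G a) (CA a) (CB a) j) ≤ 1 + 9 * n a
        have h5 : esz (msimV (K a) (n a) (F a) (G a) (CA a) (CB a) j) = _ := h3
        omega⟩

@[fun_prop]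
theorem uniV_pt {n : α → ℕ} {X : α → List (ℕ × List Bool)} (hn : PolyTime n)
    (hX : PolyTime X) : PolyTime (fun a => uniV (n a) (X a)) := by
  unfold uniV
  fun_prop

theorem tpowV_le (M x : ℕ) : tpowV M x ≤ max 1 M := by
  cases x with
  | zero => exact le_max_left _ _
  | succ x => exact (Nat.min_le_right _ _).trans (le_max_right _ _)

@[fun_prop]
theorem tpowV_pt {M x : α → ℕ} (hM : PolyTime M) (hx : PolyTime x) :
    PolyTime (fun a => tpowV (M a) (x a)) := by
  have hh : PolyTime (fun p : (α × ℕ) × ℕ => min (p.2 + p.2) (M p.1.1)) := by fun_prop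
  exact PolyTime.recN (n := x) (g := fun _ => 1) (h := fun a _ y => min (y + y) (M a)) hx
    (PolyTime.const 1) hh
    ⟨fun a => max 1 (M a), (Bdd.const 1).max (bdd_nat hM), by
        intro a i _
        rw [esz_nat]
        exact tpowV_le (M a) i⟩

@[fun_prop]
theorem sdcV_pt {n : α → ℕ} {B Z : α → List Bool} (hn : PolyTime n) (hB : PolyTime B)
    (hZ : PolyTime Z) : PolyTime (fun a => sdcV (n a) (B a) (Z a)) := by
  unfold sdcV
  fun_prop

@[fun_prop]
theorem hpotV_pt {K M n : α → ℕ} {F : α → List (List Bool)} {O Z : α → List Bool}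
    (hK : PolyTime K) (hM : PolyTime M) (hn : PolyTime n) (hF : PolyTime F) (hO : PolyTime O)
    (hZ : PolyTime Z) : PolyTime (fun a => hpotV (K a) (M a) (n a) (F a) (O a) (Z a)) := by
  unfold hpotV
  fun_prop

@[fun_prop]
theorem potV_pt {K M n : α → ℕ} {F G : α → List (List Bool)} {s : α → List Bool × List Bool}
    (hK : PolyTime K) (hM : PolyTime M) (hn : PolyTime n) (hF : PolyTime F) (hG : PolyTime G)
    (hs : PolyTime s) : PolyTime (fun a => potV (K a) (M a) (n a) (F a) (G a) (s a)) := by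
  unfold potV
  fun_prop

@[fun_prop]
theorem cstepV_pt {K M n v : α → ℕ} {F G : α → List (List Bool)}
    {s : α → List Bool × List Bool} (hK : PolyTime K) (hM : PolyTime M) (hn : PolyTime n)
    (hF : PolyTime F) (hG : PolyTime G) (hs : PolyTime s) (hv : PolyTime v) :
    PolyTime (fun a => cstepV (K a) (M a) (n a) (F a) (G a) (s a) (v a)) := by
  unfold cstepV
  fun_prop

theorem esz_cstepV (K M n : ℕ) (F G : List (List Bool)) (s : List Bool × List Bool)
    (v a b : ℕ) (h1 : esz s.1 ≤ a + 3 * n) (h2 : esz s.2 ≤ b + 3 * n) :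
    esz (cstepV K M n F G s v).1 ≤ a + 3 * n ∧ esz (cstepV K M n F G s v).2 ≤ b + 3 * n := by
  have e1 := esz_insV n s.1 v
  have e2 := esz_insV n s.2 v
  unfold cstepV
  cases (mem s.1 v || mem s.2 v) <;>
    cases decide (potV K M n F G (insV n s.1 v, s.2) ≤ potV K M n F G (s.1, insV n s.2 v)) <;>
    simp only [cond_true, cond_false] <;> constructor <;> omega

theorem esz_cexpV (K M n : ℕ) (F G : List (List Bool)) (s : List Bool × List Bool) (i : ℕ) :
    esz (cexpV K M n F G s i).1 ≤ esz s.1 + 3 * n ∧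
      esz (cexpV K M n F G s i).2 ≤ esz s.2 + 3 * n := by
  induction i with
  | zero => exact ⟨Nat.le_add_right _ _, Nat.le_add_right _ _⟩
  | succ i ih => exact esz_cstepV K M n F G (cexpV K M n F G s i) i _ _ ih.1 ih.2

@[fun_prop]
theorem cexpV_pt {K M n i : α → ℕ} {F G : α → List (List Bool)}
    {s : α → List Bool × List Bool} (hK : PolyTime K) (hM : PolyTime M) (hn : PolyTime n)
    (hF : PolyTime F) (hG : PolyTime G) (hs : PolyTime s) (hi : PolyTime i) :
    PolyTime (fun a => cexpV (K a) (M a) (n a) (F a) (G a) (s a) (i a)) := by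
  have hh : PolyTime (fun p : (α × ℕ) × (List Bool × List Bool) =>
      cstepV (K p.1.1) (M p.1.1) (n p.1.1) (F p.1.1) (G p.1.1) p.2 p.1.2) := by fun_prop
  have hs1 : PolyTime (fun a => esz (s a)) := by fun_prop
  exact PolyTime.recN (n := i) (g := s)
    (h := fun a v t => cstepV (K a) (M a) (n a) (F a) (G a) t v) hi hs hh
    ⟨fun a => esz (s a) + 9 * n a, (bdd_nat hs1).add ((Bdd.const 9).mul (bdd_nat hn)), by
        intro a j _
        obtain ⟨h1, h2⟩ := esz_cexpV (K a) (M a) (n a) (F a) (G a) (s a) j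
        have h3 := esz_pair (cexpV (K a) (M a) (n a) (F a) (G a) (s a) j).1
          (cexpV (K a) (M a) (n a) (F a) (G a) (s a) j).2
        have h4 := esz_pair (s a).1 (s a).2
        change esz (cexpV (K a) (M a) (n a) (F a) (G a) (s a) j) ≤ esz (s a) + 9 * n a
        have h5 : esz (cexpV (K a) (M a) (n a) (F a) (G a) (s a) j) = _ := h3
        have h6 : esz (s a) = _ := h4
        omega⟩

@[fun_prop]
theorem decAV_pt {K M n : α → ℕ} {F G : α → List (List Bool)} {As Bs : α → List (ℕ × List Bool)}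
    (hK : PolyTime K) (hM : PolyTime M) (hn : PolyTime n) (hF : PolyTime F) (hG : PolyTime G)
    (hA : PolyTime As) (hB : PolyTime Bs) :
    PolyTime (fun a => decAV (K a) (M a) (n a) (F a) (G a) (As a) (Bs a)) := by
  unfold decAV
  fun_prop

@[fun_prop]
theorem decSV_pt {K n i : α → ℕ} {F G : α → List (List Bool)} {As Bs : α → List (ℕ × List Bool)}
    {b : α → Bool} (hK : PolyTime K) (hn : PolyTime n) (hF : PolyTime F) (hG : PolyTime G)
    (hA : PolyTime As) (hB : PolyTime Bs) (hi : PolyTime i) (hb : PolyTime b) :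
    PolyTime (fun a => decSV (K a) (n a) (F a) (G a) (As a) (Bs a) (i a) (b a)) := by
  unfold decSV
  fun_prop

@[fun_prop]
theorem decBV_pt {K n : α → ℕ} {G : α → List (List Bool)} {s : α → List Bool × List Bool}
    {Cs Y : α → List (ℕ × List Bool)} (hK : PolyTime K) (hn : PolyTime n) (hG : PolyTime G)
    (hs : PolyTime s) (hC : PolyTime Cs) (hY : PolyTime Y) :
    PolyTime (fun a => decBV (K a) (n a) (G a) (s a) (Cs a) (Y a)) := by
  unfold decBV
  fun_prop

@[fun_prop]
theorem decCV_pt {K n : α → ℕ} {F : α → List (List Bool)} {s : α → List Bool × List Bool}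
    {Cs Y : α → List (ℕ × List Bool)} (hK : PolyTime K) (hn : PolyTime n) (hF : PolyTime F)
    (hs : PolyTime s) (hC : PolyTime Cs) (hY : PolyTime Y) :
    PolyTime (fun a => decCV (K a) (n a) (F a) (s a) (Cs a) (Y a)) := by
  unfold decCV
  fun_prop

@[fun_prop]
theorem k0S_pt {E L : α → List (List Bool)} (hE : PolyTime E) (hL : PolyTime L) :
    PolyTime (fun a => k0S (E a) (L a)) := by
  unfold k0S
  fun_prop

@[fun_prop]
theorem k1S_pt {E L : α → List (List Bool)} (hE : PolyTime E) (hL : PolyTime L) :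
    PolyTime (fun a => k1S (E a) (L a)) := by
  unfold k1S
  have h1 : PolyTime (fun p : α × ℕ => mS (E p.1) (L p.1) ≤
      p.2 * p.2 * (p.2 * p.2) * (p.2 * p.2 * (p.2 * p.2))) := by fun_prop
  have h2 : PolyTime (fun a => PT.mu (mS (E a) (L a) + 1)
      (fun x => mS (E a) (L a) ≤ x * x * (x * x) * (x * x * (x * x)))) :=
    PolyTime.mu' (n := fun a => mS (E a) (L a) + 1)
      (Q := fun a x => mS (E a) (L a) ≤ x * x * (x * x) * (x * x * (x * x))) (by fun_prop) h1
  fun_prop

@[fun_prop]
theorem cS_pt {E L : α → List (List Bool)} (hE : PolyTime E) (hL : PolyTime L) :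
    PolyTime (fun a => cS (E a) (L a)) := by
  unfold cS
  fun_prop

@[fun_prop]
theorem tS_pt {K : α → ℕ} {E L : α → List (List Bool)} (hK : PolyTime K) (hE : PolyTime E)
    (hL : PolyTime L) : PolyTime (fun a => tS (K a) (E a) (L a)) := by
  unfold tS
  fun_prop

@[fun_prop]
theorem allS2_pt {K₀ K M n : α → ℕ} {E L : α → List (List Bool)}
    {UL UE TE YE TL YL : α → List (List (ℕ × List Bool))} (hK₀ : PolyTime K₀) (hK : PolyTime K)
    (hM : PolyTime M) (hn : PolyTime n) (hE : PolyTime E) (hL : PolyTime L) (h1 : PolyTime UL)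
    (h2 : PolyTime UE) (h3 : PolyTime TE) (h4 : PolyTime YE) (h5 : PolyTime TL)
    (h6 : PolyTime YL) :
    PolyTime (fun a => allS2 (K₀ a) (K a) (M a) (n a) (E a) (L a) (UL a) (UE a) (TE a) (YE a)
      (TL a) (YL a)) := by
  unfold allS2
  fun_prop

@[fun_prop]
theorem nextS2_pt' {P n K : α → ℕ} {E L : α → List (List Bool)} (hP : PolyTime P)
    (hn : PolyTime n) (hE : PolyTime E) (hL : PolyTime L) (hK : PolyTime K) :
    PolyTime (fun a => nextS2 (P a) (n a) (E a) (L a) (K a)) := by
  unfold nextS2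
  fun_prop

@[fun_prop]
theorem feasS2_pt' {P n K : α → ℕ} {E L : α → List (List Bool)} (hP : PolyTime P)
    (hn : PolyTime n) (hE : PolyTime E) (hL : PolyTime L) (hK : PolyTime K) :
    PolyTime (fun a => feasS2 (P a) (n a) (E a) (L a) (K a)) := by
  unfold feasS2
  fun_prop

theorem feasS2_pt :
    PolyTime (fun p : State × ℕ => feasS2 p.1.2.2.1 p.1.1.1 p.1.1.2 p.1.2.1 p.2) := by
  fun_prop

theorem nextS2_pt :
    PolyTime (fun p : State × ℕ => nextS2 p.1.2.2.1 p.1.1.1 p.1.1.2 p.1.2.1 p.2) := by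
  fun_prop

end Pool.Agent.Helper66.SQ2
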