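import Mathlib
import Pool.Agent.Helper33.TCM.Final
import Pool.Agent.Helper66.SQ2.VPT
import Pool.Agent.Helper66.SQ2.Search

/-!
# The final machine, with the mixed decoder

Searches in this order: LS (edges of size `O(log N)`), SQ2 (all hypergraphs,
`N ^ O(sqrt (log N / log log N))`), trace covers, local closures (VC-dimension).
-/

set_option autoImplicit false

namespace Pool.Agent.Helper66.SQ2

open Pool.Agent.Helper36.PT Pool.Agent.Helper81.VCP Pool.Agent.Helper64.SQ Pool.Agent.Helper16.LS
  Pool.Agent.Helper33.TCM Pool.Agent.Helper50.SQ2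

variable {n : ℕ}

/-- The step of the final machine. -/
noncomputable def stepF2 : State → State := stepX feasM nextM (stepX feasS2 nextS2 stepT)

theorem stepF2_pt : PolyTime stepF2 :=
  stepX_pt' (stepX_pt feasS2_pt nextS2_pt stepT_pt)

/-- `sqrt (log N / log log N)`. -/
def sqn (N : ℕ) : ℕ := Nat.sqrt (Nat.log 2 N / (Nat.log 2 (Nat.log 2 N) + 1))

/-- The parameter of an instance. -/
noncomputable def kap2 (E : List (Finset (Fin n))) (N : ℕ) : ℕ :=
  min (min E.toFinset.vcDim (TrF E).vcDim)
    (min (Nat.log 2 ((E.toFinset ∪ TrF E).sup Finset.card / Nat.log 2 N)) (sqn N))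

theorem round_SQ2 (E : List (Finset (Fin n))) (v : ℕ)
    (hv : RoundSpec stepT E v ∨
      1710 * yy (Nat.log 2 (n * (E.length + (TrF E).card) + n + 2)) ≤ v + 2) :
    RoundSpec (stepX feasS2 nextS2 stepT) E v := by
  apply round_stepX feasS2 nextS2 stepT E v
  · intro P L q w h
    exact nextS2_some P E L q w h
  · intro P L q hL hf h
    exact nextS2_none P E L q hL hf h
  · exact roundT_ex E
  · rcases hv with hv | hv
    · exact Or.inl hv
    · refine Or.inr fun P L hnd hL hP => ?_
      have hLc := length_le_TrF E L hnd hL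
      refine feasS2_of_card P (n * (E.length + (TrF E).card) + n + 2) E L ?_ ?_
      · have : n * (E.length + L.length) ≤ n * (E.length + (TrF E).card) :=
          Nat.mul_le_mul_left _ (by omega)
        omega
      · exact (Nat.pow_le_pow_right (by omega) hv).trans hP

theorem round_stepF2 (E : List (Finset (Fin n))) :
    RoundSpec stepF2 E (1710 + 1710 * kap2 E (n * (E.length + (TrF E).card) + n + 2)) := by
  have hS : ∃ v', RoundSpec (stepX feasS2 nextS2 stepT) E v' := by
    obtain ⟨v', hv'⟩ := roundT_ex E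
    exact ⟨v', round_SQ2 E v' (Or.inl hv')⟩
  set b := n * (E.length + (TrF E).card) + n + 2 with hb
  unfold stepF2
  apply round_M _ E _ hS
  unfold kap2
  rcases min_choice (min E.toFinset.vcDim (TrF E).vcDim)
    (min (Nat.log 2 ((E.toFinset ∪ TrF E).sup Finset.card / Nat.log 2 b)) (sqn b)) with h | h
  · left
    apply round_SQ2
    left
    apply round_stepT
    rw [h]
    rcases min_choice E.toFinset.vcDim (TrF E).vcDim with h | h
    · left
      rw [h]
      omega
    · right
      left
      rw [h]
      omega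
  · rw [h]
    rcases min_choice (Nat.log 2 ((E.toFinset ∪ TrF E).sup Finset.card / Nat.log 2 b))
      (sqn b) with h | h
    · right
      rw [h]
      refine ⟨(E.toFinset ∪ TrF E).sup Finset.card, fun A hA => ?_, fun B hB => ?_, ?_⟩
      · exact Finset.le_sup (f := Finset.card) (Finset.mem_union_left _ (List.mem_toFinset.2 hA))
      · exact Finset.le_sup (f := Finset.card)
          (Finset.mem_union_right _ ((mem_TrF' E B).2 hB))
      · rw [← hb]
        omega
    · left
      apply round_SQ2
      right
      rw [h, ← hb]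
      unfold yy sqn
      omega

theorem sqn_le (b N : ℕ) (h1 : b ≤ N) (h2 : N ≤ 2 * b) (hb : 2 ≤ b) : sqn b ≤ 2 * sqn N + 1 := by
  have hl : Nat.log 2 b ≤ Nat.log 2 N := Nat.log_mono_right h1
  have hl2 : Nat.log 2 N ≤ Nat.log 2 b + 1 := by
    calc Nat.log 2 N ≤ Nat.log 2 (b * 2) := Nat.log_mono_right (by omega)
      _ = Nat.log 2 b + 1 := Nat.log_mul_base (by norm_num) (by omega)
  have hpos : 1 ≤ Nat.log 2 b := by
    rw [Nat.one_le_iff_ne_zero]
    intro h0
    rw [Nat.log_eq_zero_iff] at h0
    omega
  unfold sqn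
  generalize Nat.log 2 b = l at hl hl2 hpos
  generalize Nat.log 2 N = l' at hl hl2
  have h3 : Nat.log 2 l' ≤ Nat.log 2 l + 1 := by
    calc Nat.log 2 l' ≤ Nat.log 2 (l * 2) := Nat.log_mono_right (by omega)
      _ = Nat.log 2 l + 1 := Nat.log_mul_base (by norm_num) (by omega)
  generalize Nat.log 2 l' = d' at h3
  generalize Nat.log 2 l = d at h3
  -- `l / (d + 1) ≤ 2 (l' / (d' + 1)) + 1`
  have h4 : l / (d + 1) / 2 ≤ l' / (d' + 1) := by
    rw [Nat.div_div_eq_div_mul]
    exact (Nat.div_le_div_left (by omega) (by omega)).trans (Nat.div_le_div_right hl)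
  generalize l / (d + 1) = x at h4
  generalize l' / (d' + 1) = y at h4
  have h5 : y < (Nat.sqrt y + 1) * (Nat.sqrt y + 1) := Nat.lt_succ_sqrt y
  have h6 : Nat.sqrt x < 2 * Nat.sqrt y + 2 := by
    rw [Nat.sqrt_lt]
    have : (2 * Nat.sqrt y + 2) * (2 * Nat.sqrt y + 2) =
      4 * ((Nat.sqrt y + 1) * (Nat.sqrt y + 1)) := by ring
    omega
  omega

theorem kap2_le (E : List (Finset (Fin n))) (L : ℕ) :
    kap2 E (n * (E.length + L) + n + 2) ≤
      2 * kap2 E ((n + 1) * (E.length + 1) + (n + 1) * L + 2) + 1 := by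
  unfold kap2
  set b := n * (E.length + L) + n + 2 with hb
  set N := (n + 1) * (E.length + 1) + (n + 1) * L + 2 with hN
  have hNb : N = n * (E.length + L) + n + (E.length + L) + 3 := by
    rw [hN]; ring
  have hbN : b ≤ N := by omega
  rcases Nat.eq_zero_or_pos n with hn | hn
  · have hz : (E.toFinset ∪ TrF E).sup Finset.card = 0 := by
      refine Nat.le_zero.1 (Finset.sup_le fun A _ => ?_)
      have := Finset.card_le_univ A
      rw [Fintype.card_fin] at this
      omega
    rw [hz]
    simp
  · have h1 : N ≤ 2 * b := by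
      have : E.length + L ≤ n * (E.length + L) := Nat.le_mul_of_pos_left _ hn
      omega
    have hsq := sqn_le b N hbN h1 (by omega)
    have hlog : Nat.log 2 ((E.toFinset ∪ TrF E).sup Finset.card / Nat.log 2 b) ≤
        Nat.log 2 ((E.toFinset ∪ TrF E).sup Finset.card / Nat.log 2 N) + 1 := by
      have h2 : Nat.log 2 N ≤ Nat.log 2 b + 1 := by
        calc Nat.log 2 N ≤ Nat.log 2 (b * 2) := Nat.log_mono_right (by omega)
          _ = Nat.log 2 b + 1 := Nat.log_mul_base (by norm_num) (by omega)
      have h3 : 1 ≤ Nat.log 2 b := by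
        rw [Nat.one_le_iff_ne_zero]
        intro h0
        rw [Nat.log_eq_zero_iff] at h0
        omega
      refine (log_half _).trans ?_
      rw [Nat.div_div_eq_div_mul]
      have h4 : (E.toFinset ∪ TrF E).sup Finset.card / (Nat.log 2 b * 2) ≤
          (E.toFinset ∪ TrF E).sup Finset.card / Nat.log 2 N := by
        apply Nat.div_le_div_left _ _
        · omega
        · have : 1 ≤ Nat.log 2 N := h3.trans (Nat.log_mono_right hbN)
          omega
      have := Nat.log_mono_right (b := 2) h4
      omega
    omega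

theorem final2 : ∃ tm : Turing.FinTM2, ∃ eIn : tm.Γ tm.k₀ ≃ Option Bool,
    ∃ eOut : tm.Γ tm.k₁ ≃ Option Bool, ∃ c : ℕ,
      ∀ n : ℕ, ∀ E : List (Finset (Fin n)), ∃ L : List (Finset (Fin n)),
        L.Nodup ∧ (∀ T : Finset (Fin n),
          T ∈ L ↔ Minimal (fun S : Finset (Fin n) => ∀ e ∈ E, (S ∩ e).Nonempty) T) ∧
        Nonempty (Turing.EvalsToInTime tm.step
          (Turing.initList tm (List.map (fun b : Option Bool => eIn.symm b) (inputW E)))
          (some (Turing.haltList tm (List.map (fun b : Option Bool => eOut.symm b) (rows L))))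
          (((inputW E).length + (rows L).length + 2) ^
            (c * (1 + min (min E.toFinset.vcDim L.toFinset.vcDim)
              (min (Nat.log 2 ((E ++ L).toFinset.sup Finset.card /
                  Nat.log 2 ((inputW E).length + (rows L).length + 2)))
                (Nat.sqrt (Nat.log 2 ((inputW E).length + (rows L).length + 2) /
                  (Nat.log 2 (Nat.log 2 ((inputW E).length + (rows L).length + 2)) +
                    1)))))))) := by
  obtain ⟨tm, eIn, eOut, c, hm⟩ := machine_of_step stepF2 stepF2_pt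
  refine ⟨tm, eIn, eOut, 3421 * c, fun n E => ?_⟩
  obtain ⟨L, hnd, hLT, hL, ⟨tr⟩⟩ := hm n E _ (round_stepF2 E)
  refine ⟨L, hnd, hL, ⟨{ tr with steps_le_m := tr.steps_le_m.trans ?_ }⟩⟩
  have hcard : L.length = (TrF E).card := by
    rw [← hLT, List.toFinset_card_of_nodup hnd]
  have h1 := kap2_le E L.length
  rw [hcard] at h1
  have h2 : (inputW E).length + (rows L).length + 2 =
      (n + 1) * (E.length + 1) + (n + 1) * (TrF E).card + 2 := by
    rw [length_inputW, length_rows, hcard]
  rw [List.toFinset_append, hLT, h2]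
  apply Nat.pow_le_pow_right (by omega)
  change c * (1 + (1710 + 1710 * kap2 E (n * (E.length + (TrF E).card) + n + 2))) ≤
    3421 * c * (1 + kap2 E ((n + 1) * (E.length + 1) + (n + 1) * (TrF E).card + 2))
  calc c * (1 + (1710 + 1710 * kap2 E (n * (E.length + (TrF E).card) + n + 2))) ≤
      c * (3421 * (1 + kap2 E ((n + 1) * (E.length + 1) + (n + 1) * (TrF E).card + 2))) :=
        Nat.mul_le_mul_left _ (by omega)
    _ = _ := by ring

end Pool.Agent.Helper66.SQ2
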